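import Mathlib

/-!
# Countably many test functions
-/

namespace Pool.Agent.Q28.HP

open Filter Topology

variable {S : Type*} [TopologicalSpace S] [T2Space S] [LocallyCompactSpace S]
  [SecondCountableTopology S]

/-- there is a countable family of test functions which is dense -/
lemma exists_dense_family : ∃ φ : ℕ → S → ℝ, (∀ m, Continuous (φ m) ∧ HasCompactSupport (φ m)) ∧
    ∀ f : S → ℝ, Continuous f → HasCompactSupport f → ∀ ε : ℝ, 0 < ε →
      ∃ m, ∀ z, |f z - φ m z| ≤ ε := by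
  classical
  let K : CompactExhaustion S := default
  choose χ h1 h2 h3 h4 using fun j => exists_continuous_one_zero_of_isCompact (K.isCompact j)
    (isClosed_empty) (Set.disjoint_empty _)
  have : Nonempty C(S, ℝ) := ⟨0⟩
  let d : ℕ → C(S, ℝ) := TopologicalSpace.denseSeq C(S, ℝ)
  have hd : DenseRange d := TopologicalSpace.denseRange_denseSeq _
  refine ⟨fun m => fun z => χ m.unpair.1 z * d m.unpair.2 z, fun m => ⟨by fun_prop,
    (h3 _).mul_right⟩, fun f hf hc ε hε => ?_⟩
  obtain ⟨j, hj⟩ := K.exists_superset_of_isCompact hc.isCompact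
  -- the neighbourhood of `f`
  let O : Set C(S, ℝ) := {g | Set.MapsTo (fun z => |g z - f z|) (tsupport (χ j)) (Set.Iio ε)}
  have hO : IsOpen O := by
    let Φ : C(S, ℝ) → C(S, ℝ) := fun g => (⟨fun r => |r|, continuous_abs⟩ : C(ℝ, ℝ)).comp
      (g - ⟨f, hf⟩)
    have hΦ : Continuous Φ :=
      (ContinuousMap.continuous_postcomp _).comp (continuous_id.sub continuous_const)
    have hO' : IsOpen {g : C(S, ℝ) | Set.MapsTo g (tsupport (χ j)) (Set.Iio ε)} :=
      ContinuousMap.isOpen_setOfPred_mapsTo (h3 j).isCompact isOpen_Iio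
    exact hO'.preimage hΦ
  have hfO : (⟨f, hf⟩ : C(S, ℝ)) ∈ O := by
    intro z _
    simpa using hε
  obtain ⟨i, hi⟩ := hd.exists_mem_open hO ⟨_, hfO⟩
  refine ⟨Nat.pair j i, fun z => ?_⟩
  simp only [Nat.unpair_pair]
  have e2 : f z = χ j z * f z := by
    by_cases h : f z = 0
    · rw [h, mul_zero]
    · rw [h1 j (hj (subset_tsupport f h))]
      simp
  by_cases hz : χ j z = 0
  · rw [hz, zero_mul] at e2
    rw [hz, zero_mul, e2, sub_zero, abs_zero]
    exact hε.le
  · have hzs : z ∈ tsupport (χ j) := subset_tsupport _ hz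
    have h5 : |d i z - f z| < ε := hi hzs
    rw [abs_sub_comm] at h5
    have h6 : f z - χ j z * d i z = χ j z * (f z - d i z) := by
      conv_lhs => rw [e2]
      ring
    rw [h6, abs_mul, abs_of_nonneg (h4 j z).1]
    calc χ j z * |f z - d i z| ≤ 1 * ε :=
          mul_le_mul (h4 j z).2 h5.le (abs_nonneg _) zero_le_one
      _ = ε := one_mul ε

/-- **the diagonal argument**: if for each `m` the proportion of the indices with
`|a n i m| > 1 / (m + 1)`... tends to zero, then almost all sequences of indices converge -/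
lemma exists_bad {J : ℕ → Type*} (hJ : ∀ n, Finite (J n)) (a : ∀ n, J n → ℕ → ℝ)
    (h : ∀ m, Tendsto (fun n => (∑ᶠ i : J n, (a n i m) ^ 2) / Nat.card (J n)) atTop (𝓝 0)) :
    ∃ bad : ∀ n, Set (J n),
      Tendsto (fun n => ((bad n).ncard : ℝ) / Nat.card (J n)) atTop (𝓝 0) ∧
      ∀ i : ∀ n, J n, (∀ᶠ n in atTop, i n ∉ bad n) →
        ∀ m, Tendsto (fun n => a n (i n) m) atTop (𝓝 0) := by
  classical
  -- the bad indices at stage `M`
  let E : ∀ n, ℕ → Set (J n) := fun n M => {i | ∃ m ≤ M, 1 / ((M : ℝ) + 1) < |a n i m|}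
  have hE : ∀ M, Tendsto (fun n => ((E n M).ncard : ℝ) / Nat.card (J n)) atTop (𝓝 0) := by
    intro M
    have h1 : Tendsto (fun n => ∑ m ∈ Finset.range (M + 1), ((M : ℝ) + 1) ^ 2 *
        ((∑ᶠ i : J n, (a n i m) ^ 2) / Nat.card (J n))) atTop (𝓝 0) := by
      have := tendsto_finsetSum (Finset.range (M + 1)) fun m _ =>
        (h m).const_mul (((M : ℝ) + 1) ^ 2)
      simpa using this
    refine squeeze_zero (fun n => by positivity) (fun n => ?_) h1
    have := Fintype.ofFinite (J n)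
    rw [← Finset.mul_sum, ← Finset.sum_div, ← mul_div_assoc]
    refine div_le_div_of_nonneg_right ?_ (by positivity)
    rw [Set.ncard_eq_toFinset_card' (E n M)]
    have h2 : ∀ i ∈ (E n M).toFinset, (1 : ℝ) ≤
        ((M : ℝ) + 1) ^ 2 * ∑ m ∈ Finset.range (M + 1), (a n i m) ^ 2 := by
      intro i hi
      rw [Set.mem_toFinset] at hi
      obtain ⟨m, hm, hlt⟩ := hi
      have h3 : (1 / ((M : ℝ) + 1)) ^ 2 ≤ (a n i m) ^ 2 := by
        rw [← sq_abs (a n i m)]
        exact pow_le_pow_left₀ (by positivity) hlt.le 2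
      have h4 : (a n i m) ^ 2 ≤ ∑ m ∈ Finset.range (M + 1), (a n i m) ^ 2 :=
        Finset.single_le_sum (f := fun m => (a n i m) ^ 2) (fun _ _ => sq_nonneg _)
          (Finset.mem_range.mpr (by omega))
      have hM0 : (0 : ℝ) < ((M : ℝ) + 1) ^ 2 := by positivity
      calc (1 : ℝ) = ((M : ℝ) + 1) ^ 2 * (1 / ((M : ℝ) + 1)) ^ 2 := by field_simp
        _ ≤ _ := mul_le_mul_of_nonneg_left (h3.trans h4) hM0.le
    calc ((E n M).toFinset.card : ℝ) = ∑ _i ∈ (E n M).toFinset, (1 : ℝ) := by simp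
      _ ≤ ∑ i ∈ (E n M).toFinset,
          ((M : ℝ) + 1) ^ 2 * ∑ m ∈ Finset.range (M + 1), (a n i m) ^ 2 :=
          Finset.sum_le_sum h2
      _ ≤ ∑ i : J n, ((M : ℝ) + 1) ^ 2 * ∑ m ∈ Finset.range (M + 1), (a n i m) ^ 2 :=
          Finset.sum_le_sum_of_subset_of_nonneg (Finset.subset_univ _) fun i _ _ =>
            mul_nonneg (by positivity) (Finset.sum_nonneg fun m _ => sq_nonneg _)
      _ = ((M : ℝ) + 1) ^ 2 * ∑ m ∈ Finset.range (M + 1), ∑ᶠ i : J n, (a n i m) ^ 2 := by
          rw [← Finset.mul_sum, Finset.sum_comm]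
          congr 1
          refine Finset.sum_congr rfl fun m _ => ?_
          rw [finsum_eq_sum_of_fintype]
  -- the stages
  have hN : ∀ M : ℕ, ∃ N : ℕ, ∀ n, N ≤ n → ((E n M).ncard : ℝ) / Nat.card (J n) ≤ 1 / ((M : ℝ) + 1) := by
    intro M
    have h1 := (hE M).eventually_le_const (show (0 : ℝ) < 1 / ((M : ℝ) + 1) by positivity)
    exact eventually_atTop.mp h1
  choose N hN using hN
  let st : ℕ → ℕ := fun n => Nat.findGreatest (fun M => N M ≤ n) n
  have hst : Tendsto st atTop atTop := by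
    refine tendsto_atTop.mpr fun M => ?_
    filter_upwards [eventually_ge_atTop (max M (N M))] with n hn
    exact Nat.le_findGreatest ((le_max_left _ _).trans hn) ((le_max_right _ _).trans hn)
  let bad : ∀ n, Set (J n) := fun n => if N (st n) ≤ n then E n (st n) else Set.univ
  have hst' : ∀ᶠ n in atTop, N (st n) ≤ n := by
    filter_upwards [eventually_ge_atTop (N 0)] with n hn
    exact Nat.findGreatest_spec (P := fun M => N M ≤ n) (Nat.zero_le n) hn
  refine ⟨bad, ?_, ?_⟩
  · have h1 : Tendsto (fun n => 1 / (((st n : ℕ) : ℝ) + 1)) atTop (𝓝 0) :=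
      (tendsto_one_div_add_atTop_nhds_zero_nat (𝕜 := ℝ)).comp hst
    refine squeeze_zero' (Eventually.of_forall fun n => by positivity) ?_ h1
    filter_upwards [hst'] with n hn
    have : bad n = E n (st n) := if_pos hn
    rw [this]
    exact hN _ n hn
  · intro i hi m
    have h1 : Tendsto (fun n => 1 / (((st n : ℕ) : ℝ) + 1)) atTop (𝓝 0) :=
      (tendsto_one_div_add_atTop_nhds_zero_nat (𝕜 := ℝ)).comp hst
    rw [tendsto_zero_iff_abs_tendsto_zero]
    refine squeeze_zero' (Eventually.of_forall fun n => abs_nonneg _) ?_ h1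
    filter_upwards [hi, hst', hst.eventually_ge_atTop m] with n h2 h3 h4
    have h5 : bad n = E n (st n) := if_pos h3
    rw [h5] at h2
    by_contra h6
    exact h2 ⟨m, h4, not_le.mp h6⟩

end Pool.Agent.Q28.HP
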