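import Mathlib

/-!
# Shimura varieties and Hecke orbits of special points: definitions

We fix a prime `p`. The adelic description of a Shimura variety is
`G(ℚ) \ (X × G(𝔸_f)) / (K × V)`, with `G(𝔸_f) = G(𝔸_f^p) × G(ℚ_p)`, where the level `K` away from `p`
is fixed and the level `V` at `p` varies.
-/

namespace Pool.Agent.Q28.HP

open MeasureTheory Filter Topology

/-- The groups and spaces in the adelic description of a Shimura variety: `GQ` is `G(ℚ)`, `A` is
`G(𝔸_f^p)`, `B` is `G(ℚ_p)`, and `K` is the level away from `p`. -/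
structure Datum where
  GQ : Type
  [groupQ : Group GQ]
  A : Type
  [groupA : Group A]
  [topA : TopologicalSpace A]
  B : Type
  [groupB : Group B]
  [topB : TopologicalSpace B]
  [topGroupB : IsTopologicalGroup B]
  [t2B : T2Space B]
  X : Type
  [topX : TopologicalSpace X]
  [act : MulAction GQ X]
  toA : GQ →* A
  toB : GQ →* B
  K : Subgroup A

attribute [instance] Datum.groupQ Datum.groupA Datum.topA Datum.groupB Datum.topB
  Datum.topGroupB Datum.t2B Datum.topX Datum.act

variable (D : Datum)

/-- The orbits of `G(ℚ) × K × V` on `X × G(𝔸_f^p) × G(ℚ_p)`. -/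
def Datum.setoid (V : Subgroup D.B) : Setoid (D.X × D.A × D.B) where
  r y z := ∃ q : D.GQ, ∃ k ∈ D.K, ∃ w ∈ V,
    z = (q • y.1, D.toA q * y.2.1 * k, D.toB q * y.2.2 * w)
  iseqv := by
    constructor
    · intro y
      exact ⟨1, 1, D.K.one_mem, 1, V.one_mem, by simp⟩
    · rintro y z ⟨q, k, hk, w, hw, rfl⟩
      refine ⟨q⁻¹, k⁻¹, D.K.inv_mem hk, w⁻¹, V.inv_mem hw, ?_⟩
      simp [mul_assoc]
    · rintro x y z ⟨q, k, hk, w, hw, rfl⟩ ⟨q', k', hk', w', hw', rfl⟩
      refine ⟨q' * q, k * k', D.K.mul_mem hk hk', w * w', V.mul_mem hw hw', ?_⟩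
      simp [mul_assoc, mul_smul]

/-- The complex points of the Shimura variety of level `K × V`:
`G(ℚ) \ (X × G(𝔸_f)) / (K × V)`. -/
def Sh (V : Subgroup D.B) : Type := Quotient (D.setoid V)

instance (V : Subgroup D.B) : TopologicalSpace (Sh D V) :=
  inferInstanceAs (TopologicalSpace (Quotient (D.setoid V)))

instance (V : Subgroup D.B) : MeasurableSpace (Sh D V) := borel _

instance (V : Subgroup D.B) : BorelSpace (Sh D V) := ⟨rfl⟩

/-- The point `[x, (u, v)]`. -/
def point (V : Subgroup D.B) (x : D.X) (u : D.A) (v : D.B) : Sh D V :=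
  Quotient.mk (D.setoid V) (x, u, v)

/-- The right translation `[x, (u, v)] ↦ [x, (u, v c)]` by the element `c` of `G(ℚ_p)`. -/
def right (c : D.B) {V W : Subgroup D.B} (h : ∀ w ∈ V, c⁻¹ * w * c ∈ W) : Sh D V → Sh D W :=
  Quotient.map (fun y => (y.1, y.2.1, y.2.2 * c)) (by
    rintro y z ⟨q, k, hk, w, hw, rfl⟩
    exact ⟨q, k, hk, c⁻¹ * w * c, h w hw, by simp [mul_assoc]⟩)

/-- The subgroup `K ∩ g K g⁻¹` of `K`: the elements `k` of `K` with `g⁻¹ k g ∈ K`. -/
def heckeSub (g : D.A) : Subgroup D.K :=
  (D.K.comap (MulAut.conj g⁻¹).toMonoidHom).subgroupOf D.K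

/-- The finite set `K / (K ∩ g K g⁻¹)`, which is the index set of the Hecke correspondence `T_g`. -/
abbrev HeckeIndex (g : D.A) : Type := D.K ⧸ heckeSub D g

/-- The point `[x, (u k g, v)]` of the Hecke orbit `T_g [x, (u, v)]`. -/
noncomputable def heckePoint (V : Subgroup D.B) (g : D.A) (x : D.X) (u : D.A) (v : D.B)
    (k : HeckeIndex D g) : Sh D V :=
  point D V x (u * (k.out : D.A) * g) v

/-- The average of the function `F` over the Hecke orbit `T_g [x, (u, v)]`. -/
noncomputable def hecke {V : Subgroup D.B} (g : D.A) (F : Sh D V → ℝ) (x : D.X) (u : D.A)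
    (v : D.B) : ℝ :=
  (∑ᶠ k : HeckeIndex D g, F (heckePoint D V g x u v k)) / Nat.card (HeckeIndex D g)

/-- The average of the function `f` over the (finite) set `S`. -/
noncomputable def avg {α : Type*} (S : Set α) (f : α → ℝ) : ℝ :=
  (∑ᶠ a ∈ S, f a) / S.ncard

/-- A special point of `X` and its reciprocity map. -/
structure CM where
  /-- the special point of `X`; it factors through the torus `T` over `ℚ` -/
  h : D.X
  /-- the finite ideles of a number field `E'` containing the reflex field of `(T, h)` -/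
  I : Type
  [comm : CommGroup I]
  /-- the reflex norm `𝔸_(E',f)^* → T(𝔸_f)`, away from `p` -/
  rA : I →* D.A
  /-- the reflex norm `𝔸_(E',f)^* → T(𝔸_f)`, at `p` -/
  rB : I →* D.B
  /-- the elements of `G(ℚ)` fixing `h` commute with the torus -/
  commutes : ∀ q : D.GQ, q • h = h → ∀ s, Commute (D.toA q) (rA s) ∧ Commute (D.toB q) (rB s)
  /-- an idele concentrated in a place over `p` -/
  s₀ : I
  rA_s₀ : rA s₀ = 1
  /-- the components of the special point `[h, (b, v)]` -/
  b : D.A
  v : D.B

attribute [instance] CM.comm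

variable {D}

/-- The conjugate `[h, r(s) (u, v)]` of the special point `[h, (u, v)]`. -/
def CM.pt (P : CM D) (V : Subgroup D.B) (s : P.I) (u : D.A) : Sh D V :=
  point D V P.h (P.rA s * u) (P.rB s * P.v)

/-- The element `a = v⁻¹ r(s₀) v` of `v⁻¹ T(ℚ_p) v`, so that `[h, r(s₀) (u, v)] = [h, (u, v a)]`. -/
def CM.a (P : CM D) : D.B := P.v⁻¹ * P.rB P.s₀ * P.v

variable (D)

/-- The conjugate `c V c⁻¹`. -/
def conj (c : D.B) (V : Subgroup D.B) : Subgroup D.B := V.map (MulAut.conj c).toMonoidHom

variable {D}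

lemma mem_heckeSub {g : D.A} {k : D.K} : k ∈ heckeSub D g ↔ g⁻¹ * (k : D.A) * g ∈ D.K := by
  unfold heckeSub
  rw [Subgroup.mem_subgroupOf, Subgroup.mem_comap]
  simp

lemma mem_conj {c w : D.B} {V : Subgroup D.B} : w ∈ conj D c V ↔ c⁻¹ * w * c ∈ V := by
  unfold conj
  rw [Subgroup.mem_map]
  constructor
  · rintro ⟨v, hv, rfl⟩
    simpa [MulAut.conj_apply, mul_assoc] using hv
  · intro h
    exact ⟨_, h, by simp [MulAut.conj_apply, mul_assoc]⟩

lemma inf_left (V W : Subgroup D.B) : ∀ w ∈ V ⊓ W, (1 : D.B)⁻¹ * w * 1 ∈ V := by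
  intro w hw
  simpa using (Subgroup.mem_inf.mp hw).1

lemma inf_right (c : D.B) (V W : Subgroup D.B) : ∀ w ∈ V ⊓ conj D c W, c⁻¹ * w * c ∈ W :=
  fun _ hw => mem_conj.mp (Subgroup.mem_inf.mp hw).2

/-- The levels `V` at `p` which we use: compact open subgroups of `G(ℚ_p)` containing the central
elements of the given level `Kp`. (Then the set of the connected components of the Shimura
varieties of level `K × V` remains bounded when `V` shrinks.) -/
structure IsLevel (Kp V : Subgroup D.B) : Prop where
  isOpen : IsOpen (V : Set D.B)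
  isCompact : IsCompact (V : Set D.B)
  central : Kp ⊓ Subgroup.center D.B ≤ V

/-- **Known facts** on the Shimura variety, the special point `[h, (b, v)]`, the element `a` of
`G(ℚ_p)` and the sequence `g n` of elements of `G(𝔸_f^p)`. `Kp` is the level at `p` of the Shimura
variety under consideration, `S(V)` is the connected component of `[h, (b, v)]` in the Shimura
variety of level `K × V`, and `μ V` is the normalised invariant measure on `S(V)`.
* `finite`: finiteness of the class numbers of tori: the orbits of the reciprocity map are finite.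
* `prob`, `invariant`: the right translations by powers of `a` map the components `S(V)` and the
  measures `μ V` to each other.
* `mixing`: the powers of `a` are mixing (Howe and Moore, strong approximation; equivalently
  the Hecke operators `T_(a^m)` converge weakly to the projection to the constants, Clozel, Oh and
  Ullmo).
* `equidistribution`: the Hecke orbits `T_(g n) z` of the points `z = [h, r(s) (b, v)]` of `S(V)` are
  equidistributed in `S(V)` (Clozel, Oh and Ullmo; Eskin and Oh; Gorodnik, Maucourant and Oh). -/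
structure Facts (Kp : Subgroup D.B) (μ : ∀ V : Subgroup D.B, Measure (Sh D V)) (g : ℕ → D.A)
    (P : CM D) : Prop where
  finite : ∀ V : Subgroup D.B, IsLevel Kp V → ∀ u, (Set.range fun s => P.pt V s u).Finite
  prob : ∀ V : Subgroup D.B, IsLevel Kp V → IsProbabilityMeasure (μ V)
  invariant : ∀ V W : Subgroup D.B, IsLevel Kp V → IsLevel Kp W → ∀ (j : ℕ)
    (h : ∀ w ∈ V, (P.a ^ j)⁻¹ * w * P.a ^ j ∈ W), (μ V).map (right D (P.a ^ j) h) = μ W
  mixing : ∀ f : Sh D Kp → ℝ, Continuous f → HasCompactSupport f →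
    Tendsto (fun m : ℕ => ∫ z : Sh D (Kp ⊓ conj D (P.a ^ m) Kp),
      f (right D 1 (inf_left Kp _) z) * f (right D (P.a ^ m) (inf_right _ Kp Kp) z)
      ∂μ (Kp ⊓ conj D (P.a ^ m) Kp))
      atTop (𝓝 ((∫ z, f z ∂μ Kp) ^ 2))
  equidistribution : ∀ V : Subgroup D.B, IsLevel Kp V → ∀ F : Sh D V → ℝ, Continuous F →
    (∃ C : ℝ, ∀ z, |F z| ≤ C) → ∀ s : P.I,
    Tendsto (fun n => hecke D (g n) F P.h (P.rA s * P.b) (P.rB s * P.v)) atTop
      (𝓝 (∫ z, F z ∂μ V))

/-- **Known facts** on the Galois action. `Γ` is the group of the automorphisms of `ℂ` over the field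
of definition `E_S` of the component `S`, acting on the complex points; `Γ'` is the subgroup of a
finite extension `E'` of `E_S`; `z₀` is a special point of `S`.
* `conjugate`: the conjugates `σ z₀` are special points `[h, (b, v)]`.
* `reciprocity`: the reciprocity law which characterises the canonical model: the orbits under
  `Γ'` of the points `[h, (u, v)]` are the orbits of the reciprocity map. -/
structure GaloisFacts (Kp : Subgroup D.B) {Γ : Type} [Group Γ] [MulAction Γ (Sh D Kp)]
    (Γ' : Subgroup Γ) (z₀ : Sh D Kp) (P : Γ → CM D) : Prop where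
  finite_index : Γ'.FiniteIndex
  conjugate : ∀ σ, σ • z₀ = (P σ).pt Kp 1 (P σ).b
  reciprocity : ∀ σ u, {z | ∃ τ ∈ Γ', τ • (P σ).pt Kp 1 u = z} = Set.range fun s => (P σ).pt Kp s u

/-- The Hecke correspondence `T_g` is defined over `E_S`: it commutes with the Galois action. -/
def HeckeEquivariant (Kp : Subgroup D.B) (Γ : Type) [Group Γ] [MulAction Γ (Sh D Kp)]
    (g : D.A) : Prop :=
  ∀ (σ : Γ) (x x' : D.X) (u u' : D.A) (v v' : D.B), σ • point D Kp x u v = point D Kp x' u' v' →
    ∃ e : HeckeIndex D g ≃ HeckeIndex D g, ∀ k,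
      σ • heckePoint D Kp g x u v k = heckePoint D Kp g x' u' v' (e k)

end Pool.Agent.Q28.HP
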