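import Pool.Agent.Q28.HP.Main

/-!
# The mean ergodic theorem for a mixing element of `G(ℚ_p)`
-/

namespace Pool.Agent.Q28.HP

open Finset MeasureTheory Filter Topology

/-- **Known facts** on an element `a` of `G(ℚ_p)`. Here `Kp` is the level at `p` of the Shimura variety,
`S(V)` a connected component of the Shimura variety of level `K × V` (compatible for all `V`), and
`μ V` is the normalised invariant measure on `S(V)`.
* `prob`, `invariant`: the right translations by powers of `a` map the components `S(V)` and the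
  measures `μ V` to each other.
* `mixing`: the powers of `a` are mixing (Howe and Moore, strong approximation; equivalently the
  Hecke operators `T_(a^m)` converge weakly to the projection to the constants, Clozel, Oh and
  Ullmo). -/
structure Dyn {D : Datum} (Kp : Subgroup D.B) (μ : ∀ V : Subgroup D.B, Measure (Sh D V))
    (a : D.B) : Prop where
  prob : ∀ V : Subgroup D.B, IsLevel Kp V → IsProbabilityMeasure (μ V)
  invariant : ∀ V W : Subgroup D.B, IsLevel Kp V → IsLevel Kp W → ∀ (j : ℕ)
    (h : ∀ w ∈ V, (a ^ j)⁻¹ * w * a ^ j ∈ W), (μ V).map (right D (a ^ j) h) = μ W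
  mixing : ∀ f : Sh D Kp → ℝ, Continuous f → HasCompactSupport f →
    Tendsto (fun m : ℕ => ∫ z : Sh D (Kp ⊓ conj D (a ^ m) Kp),
      f (right D 1 (inf_left Kp _) z) * f (right D (a ^ m) (inf_right _ Kp Kp) z)
      ∂μ (Kp ⊓ conj D (a ^ m) Kp))
      atTop (𝓝 ((∫ z, f z ∂μ Kp) ^ 2))

variable {D : Datum} {Kp : Subgroup D.B} {μ : ∀ V : Subgroup D.B, Measure (Sh D V)} {a : D.B}

lemma corr_eq' (hF : Dyn Kp μ a) (hK : IsLevel Kp Kp)
    (f : Sh D Kp → ℝ) (hf : Continuous f) {j k N : ℕ} (hj : j ≤ k) (hk : k ≤ N) :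
    ∫ z, f (right D (a ^ j) (level_mem a Kp (hj.trans hk)) z) *
      f (right D (a ^ k) (level_mem a Kp hk) z) ∂μ (level a Kp N) = corr μ a f (k - j) := by
  have h1 := hF.invariant (level a Kp N) (Kp ⊓ conj D (a ^ (k - j)) Kp)
    (level_isLevel _ hK N) (isLevel_inf hK hK _) j (level_mem_inf a Kp hj hk)
  unfold corr
  rw [← h1, integral_map (continuous_right _ _).measurable.aemeasurable]
  · refine integral_congr_ae (Filter.Eventually.of_forall fun z => ?_)
    simp only
    rw [right_right (a ^ j) 1 _ _ (a ^ j) (level_mem a Kp (hj.trans hk)) (by simp) z,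
      right_right (a ^ j) (a ^ (k - j)) _ _ (a ^ k) (level_mem a Kp hk)
        (by rw [← pow_add, Nat.add_sub_cancel' hj]) z]
  · exact ((hf.comp (continuous_right _ _)).mul
      (hf.comp (continuous_right _ _))).aestronglyMeasurable

lemma integral_right' (hF : Dyn Kp μ a) (hK : IsLevel Kp Kp) (f : Sh D Kp → ℝ) (hf : Continuous f) {j N : ℕ}
    (hj : j ≤ N) :
    ∫ z, f (right D (a ^ j) (level_mem a Kp hj) z) ∂μ (level a Kp N) =
      ∫ z, f z ∂μ Kp := by
  have h1 := hF.invariant (level a Kp N) Kp (level_isLevel _ hK N) hK j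
    (level_mem a Kp hj)
  rw [← h1, integral_map (continuous_right _ _).measurable.aemeasurable hf.aestronglyMeasurable]

/-- **the mean ergodic theorem**: the variances of the ergodic averages tend to zero -/
theorem ergodic' (hF : Dyn Kp μ a) (hK : IsLevel Kp Kp) (f : Sh D Kp → ℝ) (hf : Continuous f)
    (hc : HasCompactSupport f) :
    Tendsto (fun N : ℕ => ∫ z, (erg a f N z - ∫ w, f w ∂μ Kp) ^ 2 ∂μ (level a Kp N)) atTop
      (𝓝 0) := by
  classical
  set c := ∫ w, f w ∂μ Kp with hcdef
  obtain ⟨C, hC⟩ := hc.exists_bound_of_continuous hf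
  simp only [Real.norm_eq_abs] at hC
  set e : ℕ → ℝ := fun m => |corr μ a f m - c ^ 2| with he
  have he0 : Tendsto e atTop (𝓝 0) := by
    have h1 : Tendsto (fun m => corr μ a f m) atTop (𝓝 (c ^ 2)) := hF.mixing f hf hc
    have h2 := (h1.sub_const (c ^ 2)).abs
    simpa using h2
  have hces := cesaro_double e (fun m => abs_nonneg _) he0
  have hces' := hces.comp (tendsto_add_atTop_nat 1)
  refine squeeze_zero (fun N => integral_nonneg fun z => sq_nonneg _) (fun N => ?_) hces'
  have := hF.prob (level a Kp N) (level_isLevel _ hK N)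
  set V := level a Kp N with hV
  -- the functions
  let F : ℕ → Sh D V → ℝ := fun j z =>
    if hj : j ≤ N then f (right D (a ^ j) (level_mem a Kp hj) z) else 0
  have hFj : ∀ j (hj : j ≤ N), F j = fun z => f (right D (a ^ j) (level_mem a Kp hj) z) :=
    fun j hj => funext fun z => dif_pos hj
  have hFc : ∀ j, j ≤ N → Continuous (F j) := fun j hj => by
    rw [hFj j hj]; exact hf.comp (continuous_right _ _)
  have hFb : ∀ j, j ≤ N → ∀ z, |F j z| ≤ C := fun j hj z => by
    rw [hFj j hj]; exact hC _
  have hN0 : (0 : ℝ) < (N + 1 : ℕ) := by positivity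
  have herg : ∀ z, erg a f N z - c = (∑ j ∈ range (N + 1), (F j z - c)) / ((N + 1 : ℕ) : ℝ) := by
    intro z
    rw [Finset.sum_sub_distrib, Finset.sum_const, Finset.card_range, nsmul_eq_mul]
    unfold erg
    rw [sub_div, mul_div_cancel_left₀ _ hN0.ne']
    congr 1
    push_cast
    congr 1
    rw [← Finset.sum_attach (range (N + 1))]
    refine Finset.sum_congr rfl fun j _ => ?_
    rw [hFj j (Nat.lt_succ_iff.mp (mem_range.mp j.2))]
  have hint : ∀ j k, j ≤ N → k ≤ N → Integrable (fun z => (F j z - c) * (F k z - c)) (μ V) := by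
    intro j k hj hk
    refine integrable_bdd (C := (C + |c|) * (C + |c|))
      (((hFc j hj).sub continuous_const).mul ((hFc k hk).sub continuous_const)) fun z => ?_
    rw [abs_mul]
    have h1 : |F j z - c| ≤ C + |c| := (abs_sub _ _).trans (by linarith [hFb j hj z])
    have h2 : |F k z - c| ≤ C + |c| := (abs_sub _ _).trans (by linarith [hFb k hk z])
    exact mul_le_mul h1 h2 (abs_nonneg _) ((abs_nonneg _).trans h1)
  have hval : ∀ j k, j ≤ N → k ≤ N →
      ∫ z, (F j z - c) * (F k z - c) ∂μ V = corr μ a f (dd j k) - c ^ 2 := by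
    intro j k hj hk
    have i1 : Integrable (fun z => F j z * F k z) (μ V) := by
      refine integrable_bdd (C := C * C) ((hFc j hj).mul (hFc k hk)) fun z => ?_
      rw [abs_mul]
      exact mul_le_mul (hFb j hj z) (hFb k hk z) (abs_nonneg _)
        ((abs_nonneg _).trans (hFb j hj z))
    have i2 : Integrable (fun z => F j z) (μ V) := integrable_bdd (hFc j hj) (hFb j hj)
    have i3 : Integrable (fun z => F k z) (μ V) := integrable_bdd (hFc k hk) (hFb k hk)
    have e1 : ∀ z, (F j z - c) * (F k z - c) =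
        F j z * F k z - c * F j z - c * F k z + c ^ 2 := fun z => by ring
    have e2 : ∫ z, F j z ∂μ V = c := by
      rw [hFj j hj]; exact integral_right' hF hK f hf hj
    have e3 : ∫ z, F k z ∂μ V = c := by
      rw [hFj k hk]; exact integral_right' hF hK f hf hk
    have e4 : ∫ z, F j z * F k z ∂μ V = corr μ a f (dd j k) := by
      rw [hFj j hj, hFj k hk]
      rcases le_total j k with h | h
      · have : dd j k = k - j := by unfold dd; omega
        rw [this]
        exact corr_eq' hF hK f hf h hk
      · have : dd j k = j - k := by unfold dd; omega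
        rw [this, ← corr_eq' hF hK f hf h hj]
        refine integral_congr_ae (Filter.Eventually.of_forall fun z => ?_)
        simp only
        ring
    simp_rw [e1]
    have i4 : Integrable (fun z => F j z * F k z - c * F j z) (μ V) := i1.sub (i2.const_mul c)
    have i5 : Integrable (fun z => F j z * F k z - c * F j z - c * F k z) (μ V) :=
      i4.sub (i3.const_mul c)
    have e5 : ∫ z, (F j z * F k z - c * F j z - c * F k z + c ^ 2) ∂μ V =
        (∫ z, (F j z * F k z - c * F j z - c * F k z) ∂μ V) + ∫ _z, c ^ 2 ∂μ V :=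
      integral_add i5 (integrable_const _)
    have e6 : ∫ z, (F j z * F k z - c * F j z - c * F k z) ∂μ V =
        (∫ z, (F j z * F k z - c * F j z) ∂μ V) - ∫ z, c * F k z ∂μ V :=
      integral_sub i4 (i3.const_mul c)
    have e7 : ∫ z, (F j z * F k z - c * F j z) ∂μ V =
        (∫ z, F j z * F k z ∂μ V) - ∫ z, c * F j z ∂μ V :=
      integral_sub i1 (i2.const_mul c)
    rw [e5, e6, e7, integral_const_mul, integral_const_mul, e2, e3, e4, integral_const]
    simp only [probReal_univ, smul_eq_mul, one_mul]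
    ring
  have hmain : ∫ z, (erg a f N z - c) ^ 2 ∂μ V =
      (∑ j ∈ range (N + 1), ∑ k ∈ range (N + 1), (corr μ a f (dd j k) - c ^ 2)) /
        ((N + 1 : ℕ) : ℝ) ^ 2 := by
    have e1 : ∀ z, (erg a f N z - c) ^ 2 =
        (∑ j ∈ range (N + 1), ∑ k ∈ range (N + 1), (F j z - c) * (F k z - c)) /
          ((N + 1 : ℕ) : ℝ) ^ 2 := by
      intro z
      rw [herg z, div_pow, sq (∑ j ∈ range (N + 1), (F j z - c)), Finset.sum_mul_sum]
    simp_rw [e1]
    rw [integral_div]
    congr 1
    rw [integral_finsetSum _ fun j hj => integrable_finsetSum _ fun k hk =>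
      hint j k (Nat.lt_succ_iff.mp (mem_range.mp hj)) (Nat.lt_succ_iff.mp (mem_range.mp hk))]
    refine Finset.sum_congr rfl fun j hj => ?_
    rw [integral_finsetSum _ fun k hk =>
      hint j k (Nat.lt_succ_iff.mp (mem_range.mp hj)) (Nat.lt_succ_iff.mp (mem_range.mp hk))]
    exact Finset.sum_congr rfl fun k hk =>
      hval j k (Nat.lt_succ_iff.mp (mem_range.mp hj)) (Nat.lt_succ_iff.mp (mem_range.mp hk))
  change ∫ z, (erg a f N z - c) ^ 2 ∂μ V ≤ _
  rw [hmain]
  simp only [Function.comp_apply]
  exact div_le_div_of_nonneg_right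
    (Finset.sum_le_sum fun j _ => Finset.sum_le_sum fun k _ => le_abs_self _) (by positivity)

end Pool.Agent.Q28.HP
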