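import Pool.Agent.Q28.HP.Space

/-!
# The mean ergodic theorem at finite level
-/

namespace Pool.Agent.Q28.HP

open Finset MeasureTheory Filter Topology

/-- the distance of two natural numbers -/
def dd (j k : ℕ) : ℕ := (k - j) + (j - k)

lemma sum_dd_le (e : ℕ → ℝ) (he : ∀ m, 0 ≤ e m) (n j : ℕ) (hj : j < n) :
    ∑ k ∈ range n, e (dd j k) ≤ 2 * ∑ m ∈ range n, e m := by
  classical
  have h1 : ∑ k ∈ (range n).filter (fun k => k ≤ j), e (dd j k) ≤ ∑ m ∈ range n, e m := by
    have hinj : Set.InjOn (fun k => j - k) ((range n).filter (fun k => k ≤ j) : Finset ℕ) := by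
      intro a ha b hb hab
      have h3 := (Finset.mem_filter.mp (Finset.mem_coe.mp ha)).2
      have h4 := (Finset.mem_filter.mp (Finset.mem_coe.mp hb)).2
      simp only at hab
      omega
    calc ∑ k ∈ (range n).filter (fun k => k ≤ j), e (dd j k)
        = ∑ k ∈ (range n).filter (fun k => k ≤ j), e (j - k) := by
          refine Finset.sum_congr rfl fun k hk => ?_
          have := (Finset.mem_filter.mp hk).2
          unfold dd
          congr 1
          omega
      _ = ∑ m ∈ ((range n).filter (fun k => k ≤ j)).image (fun k => j - k), e m := by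
          rw [Finset.sum_image hinj]
      _ ≤ ∑ m ∈ range n, e m := by
          refine Finset.sum_le_sum_of_subset_of_nonneg ?_ fun m _ _ => he m
          intro m hm
          rw [Finset.mem_image] at hm
          obtain ⟨k, hk, rfl⟩ := hm
          rw [Finset.mem_range]
          omega
  have h2 : ∑ k ∈ (range n).filter (fun k => ¬ k ≤ j), e (dd j k) ≤ ∑ m ∈ range n, e m := by
    have hinj : Set.InjOn (fun k => k - j) ((range n).filter (fun k => ¬ k ≤ j) : Finset ℕ) := by
      intro a ha b hb hab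
      have h3 := (Finset.mem_filter.mp (Finset.mem_coe.mp ha)).2
      have h4 := (Finset.mem_filter.mp (Finset.mem_coe.mp hb)).2
      simp only at hab
      omega
    calc ∑ k ∈ (range n).filter (fun k => ¬ k ≤ j), e (dd j k)
        = ∑ k ∈ (range n).filter (fun k => ¬ k ≤ j), e (k - j) := by
          refine Finset.sum_congr rfl fun k hk => ?_
          have := (Finset.mem_filter.mp hk).2
          unfold dd
          congr 1
          omega
      _ = ∑ m ∈ ((range n).filter (fun k => ¬ k ≤ j)).image (fun k => k - j), e m := by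
          rw [Finset.sum_image hinj]
      _ ≤ ∑ m ∈ range n, e m := by
          refine Finset.sum_le_sum_of_subset_of_nonneg ?_ fun m _ _ => he m
          intro m hm
          rw [Finset.mem_image] at hm
          obtain ⟨k, hk, rfl⟩ := hm
          have h3 := Finset.mem_range.mp (Finset.mem_filter.mp hk).1
          rw [Finset.mem_range]
          omega
  rw [← Finset.sum_filter_add_sum_filter_not (range n) (fun k => k ≤ j)]
  linarith

/-- a double Cesàro mean of a null sequence -/
lemma cesaro_double (e : ℕ → ℝ) (he : ∀ m, 0 ≤ e m) (h0 : Tendsto e atTop (𝓝 0)) :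
    Tendsto (fun n : ℕ => (∑ j ∈ range n, ∑ k ∈ range n, e (dd j k)) / (n : ℝ) ^ 2) atTop
      (𝓝 0) := by
  have h1 : Tendsto (fun n : ℕ => 2 * ((n⁻¹ : ℝ) * ∑ m ∈ range n, e m)) atTop (𝓝 (2 * 0)) :=
    (h0.cesaro).const_mul 2
  rw [mul_zero] at h1
  refine squeeze_zero (fun n => ?_) (fun n => ?_) h1
  · exact div_nonneg (Finset.sum_nonneg fun j _ => Finset.sum_nonneg fun k _ => he _)
      (by positivity)
  · rcases Nat.eq_zero_or_pos n with rfl | hn
    · simp
    · have hn0 : (0 : ℝ) < n := by exact_mod_cast hn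
      rw [div_le_iff₀ (by positivity)]
      calc ∑ j ∈ range n, ∑ k ∈ range n, e (dd j k)
          ≤ ∑ j ∈ range n, 2 * ∑ m ∈ range n, e m :=
            Finset.sum_le_sum fun j hj => sum_dd_le e he n j (Finset.mem_range.mp hj)
        _ = 2 * ((n⁻¹ : ℝ) * ∑ m ∈ range n, e m) * (n : ℝ) ^ 2 := by
            rw [Finset.sum_const, Finset.card_range, nsmul_eq_mul]
            field_simp

variable {D : Datum}

/-- the ergodic average of `f` -/
noncomputable def erg (a : D.B) {Kp : Subgroup D.B} (f : Sh D Kp → ℝ) (N : ℕ)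
    (z : Sh D (level a Kp N)) : ℝ :=
  (∑ j ∈ (range (N + 1)).attach,
    f (right D (a ^ (j : ℕ)) (level_mem a Kp (Nat.lt_succ_iff.mp (mem_range.mp j.2))) z)) / (N + 1)

lemma continuous_erg (a : D.B) {Kp : Subgroup D.B} {f : Sh D Kp → ℝ} (hf : Continuous f)
    (N : ℕ) : Continuous (erg a f N) := by
  unfold erg
  refine Continuous.div_const ?_ _
  refine continuous_finsetSum _ fun j _ => ?_
  exact hf.comp (continuous_right _ _)

lemma abs_erg_le (a : D.B) {Kp : Subgroup D.B} {f : Sh D Kp → ℝ} {C : ℝ} (hC : ∀ z, |f z| ≤ C)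
    (N : ℕ) (z : Sh D (level a Kp N)) : |erg a f N z| ≤ C := by
  unfold erg
  have h0 : (0 : ℝ) < N + 1 := by positivity
  rw [abs_div, abs_of_pos h0, div_le_iff₀ h0]
  refine (Finset.abs_sum_le_sum_abs _ _).trans ?_
  calc ∑ j ∈ (range (N + 1)).attach, |f (right D (a ^ (j : ℕ)) _ z)|
      ≤ ∑ _j ∈ (range (N + 1)).attach, C := Finset.sum_le_sum fun j _ => hC _
    _ = C * (N + 1) := by
      rw [Finset.sum_const, Finset.card_attach, Finset.card_range, nsmul_eq_mul]
      push_cast; ring

lemma erg_pt (P : CM D) {Kp : Subgroup D.B} (f : Sh D Kp → ℝ) (N : ℕ) (s : P.I) (u : D.A) :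
    erg P.a f N (P.pt (level P.a Kp N) s u) =
      (∑ j ∈ range (N + 1), f (P.pt Kp (s * P.s₀ ^ j) u)) / ((N + 1 : ℕ) : ℝ) := by
  unfold erg
  push_cast
  congr 1
  rw [← Finset.sum_attach (range (N + 1))]
  refine Finset.sum_congr rfl fun j _ => ?_
  rw [right_pt]

variable {Kp : Subgroup D.B} {μ : ∀ V : Subgroup D.B, Measure (Sh D V)} {g : ℕ → D.A} {P : CM D}

/-- the correlations -/
noncomputable def corr (μ : ∀ V : Subgroup D.B, Measure (Sh D V)) (a : D.B) (f : Sh D Kp → ℝ)
    (m : ℕ) : ℝ :=
  ∫ z : Sh D (Kp ⊓ conj D (a ^ m) Kp),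
    f (right D 1 (inf_left Kp _) z) * f (right D (a ^ m) (inf_right _ Kp Kp) z)
      ∂μ (Kp ⊓ conj D (a ^ m) Kp)

lemma corr_eq (hF : Facts Kp μ g P) (hK : IsLevel Kp Kp)
    (f : Sh D Kp → ℝ) (hf : Continuous f) {j k N : ℕ} (hj : j ≤ k) (hk : k ≤ N) :
    ∫ z, f (right D (P.a ^ j) (level_mem P.a Kp (hj.trans hk)) z) *
      f (right D (P.a ^ k) (level_mem P.a Kp hk) z) ∂μ (level P.a Kp N) = corr μ P.a f (k - j) := by
  have h1 := hF.invariant (level P.a Kp N) (Kp ⊓ conj D (P.a ^ (k - j)) Kp)
    (level_isLevel _ hK N) (isLevel_inf hK hK _) j (level_mem_inf P.a Kp hj hk)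
  unfold corr
  rw [← h1, integral_map (continuous_right _ _).measurable.aemeasurable]
  · refine integral_congr_ae (Filter.Eventually.of_forall fun z => ?_)
    simp only
    rw [right_right (P.a ^ j) 1 _ _ (P.a ^ j) (level_mem P.a Kp (hj.trans hk)) (by simp) z,
      right_right (P.a ^ j) (P.a ^ (k - j)) _ _ (P.a ^ k) (level_mem P.a Kp hk)
        (by rw [← pow_add, Nat.add_sub_cancel' hj]) z]
  · exact ((hf.comp (continuous_right _ _)).mul
      (hf.comp (continuous_right _ _))).aestronglyMeasurable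

lemma integral_right (hF : Facts Kp μ g P) (hK : IsLevel Kp Kp) (f : Sh D Kp → ℝ) (hf : Continuous f) {j N : ℕ}
    (hj : j ≤ N) :
    ∫ z, f (right D (P.a ^ j) (level_mem P.a Kp hj) z) ∂μ (level P.a Kp N) =
      ∫ z, f z ∂μ Kp := by
  have h1 := hF.invariant (level P.a Kp N) Kp (level_isLevel _ hK N) hK j
    (level_mem P.a Kp hj)
  rw [← h1, integral_map (continuous_right _ _).measurable.aemeasurable hf.aestronglyMeasurable]

/-- integrals of bounded continuous functions exist -/
lemma integrable_bdd {V : Subgroup D.B} [IsProbabilityMeasure (μ V)] {F : Sh D V → ℝ}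
    (hF : Continuous F) {C : ℝ} (hC : ∀ z, |F z| ≤ C) : Integrable F (μ V) :=
  Integrable.of_bound hF.aestronglyMeasurable C (Filter.Eventually.of_forall fun z => by
    rw [Real.norm_eq_abs]; exact hC z)

/-- **the mean ergodic theorem**: the variances of the ergodic averages tend to zero -/
theorem ergodic (hF : Facts Kp μ g P) (hK : IsLevel Kp Kp) (f : Sh D Kp → ℝ) (hf : Continuous f)
    (hc : HasCompactSupport f) :
    Tendsto (fun N : ℕ => ∫ z, (erg P.a f N z - ∫ w, f w ∂μ Kp) ^ 2 ∂μ (level P.a Kp N)) atTop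
      (𝓝 0) := by
  classical
  set c := ∫ w, f w ∂μ Kp with hcdef
  obtain ⟨C, hC⟩ := hc.exists_bound_of_continuous hf
  simp only [Real.norm_eq_abs] at hC
  set e : ℕ → ℝ := fun m => |corr μ P.a f m - c ^ 2| with he
  have he0 : Tendsto e atTop (𝓝 0) := by
    have h1 : Tendsto (fun m => corr μ P.a f m) atTop (𝓝 (c ^ 2)) := hF.mixing f hf hc
    have h2 := (h1.sub_const (c ^ 2)).abs
    simpa using h2
  have hces := cesaro_double e (fun m => abs_nonneg _) he0
  have hces' := hces.comp (tendsto_add_atTop_nat 1)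
  refine squeeze_zero (fun N => integral_nonneg fun z => sq_nonneg _) (fun N => ?_) hces'
  have := hF.prob (level P.a Kp N) (level_isLevel _ hK N)
  set V := level P.a Kp N with hV
  -- the functions
  let F : ℕ → Sh D V → ℝ := fun j z =>
    if hj : j ≤ N then f (right D (P.a ^ j) (level_mem P.a Kp hj) z) else 0
  have hFj : ∀ j (hj : j ≤ N), F j = fun z => f (right D (P.a ^ j) (level_mem P.a Kp hj) z) :=
    fun j hj => funext fun z => dif_pos hj
  have hFc : ∀ j, j ≤ N → Continuous (F j) := fun j hj => by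
    rw [hFj j hj]; exact hf.comp (continuous_right _ _)
  have hFb : ∀ j, j ≤ N → ∀ z, |F j z| ≤ C := fun j hj z => by
    rw [hFj j hj]; exact hC _
  have hN0 : (0 : ℝ) < (N + 1 : ℕ) := by positivity
  have herg : ∀ z, erg P.a f N z - c = (∑ j ∈ range (N + 1), (F j z - c)) / ((N + 1 : ℕ) : ℝ) := by
    intro z
    rw [Finset.sum_sub_distrib, Finset.sum_const, Finset.card_range, nsmul_eq_mul]
    unfold erg
    rw [sub_div, mul_div_cancel_left₀ _ hN0.ne']
    congr 1
    push_cast
    congr 1
    rw [← Finset.sum_attach (range (N + 1))]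
    refine Finset.sum_congr rfl fun j _ => ?_
    rw [hFj j (Nat.lt_succ_iff.mp (mem_range.mp j.2))]
  have hint : ∀ j k, j ≤ N → k ≤ N → Integrable (fun z => (F j z - c) * (F k z - c)) (μ V) := by
    intro j k hj hk
    refine integrable_bdd (C := (C + |c|) * (C + |c|))
      (((hFc j hj).sub continuous_const).mul ((hFc k hk).sub continuous_const)) fun z => ?_
    rw [abs_mul]
    have h1 : |F j z - c| ≤ C + |c| := (abs_sub _ _).trans (by linarith [hFb j hj z])
    have h2 : |F k z - c| ≤ C + |c| := (abs_sub _ _).trans (by linarith [hFb k hk z])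
    exact mul_le_mul h1 h2 (abs_nonneg _) ((abs_nonneg _).trans h1)
  have hval : ∀ j k, j ≤ N → k ≤ N →
      ∫ z, (F j z - c) * (F k z - c) ∂μ V = corr μ P.a f (dd j k) - c ^ 2 := by
    intro j k hj hk
    have i1 : Integrable (fun z => F j z * F k z) (μ V) := by
      refine integrable_bdd (C := C * C) ((hFc j hj).mul (hFc k hk)) fun z => ?_
      rw [abs_mul]
      exact mul_le_mul (hFb j hj z) (hFb k hk z) (abs_nonneg _)
        ((abs_nonneg _).trans (hFb j hj z))
    have i2 : Integrable (fun z => F j z) (μ V) := integrable_bdd (hFc j hj) (hFb j hj)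
    have i3 : Integrable (fun z => F k z) (μ V) := integrable_bdd (hFc k hk) (hFb k hk)
    have e1 : ∀ z, (F j z - c) * (F k z - c) =
        F j z * F k z - c * F j z - c * F k z + c ^ 2 := fun z => by ring
    have e2 : ∫ z, F j z ∂μ V = c := by
      rw [hFj j hj]; exact integral_right hF hK f hf hj
    have e3 : ∫ z, F k z ∂μ V = c := by
      rw [hFj k hk]; exact integral_right hF hK f hf hk
    have e4 : ∫ z, F j z * F k z ∂μ V = corr μ P.a f (dd j k) := by
      rw [hFj j hj, hFj k hk]
      rcases le_total j k with h | h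
      · have : dd j k = k - j := by unfold dd; omega
        rw [this]
        exact corr_eq hF hK f hf h hk
      · have : dd j k = j - k := by unfold dd; omega
        rw [this, ← corr_eq hF hK f hf h hj]
        refine integral_congr_ae (Filter.Eventually.of_forall fun z => ?_)
        simp only
        ring
    simp_rw [e1]
    have i4 : Integrable (fun z => F j z * F k z - c * F j z) (μ V) := i1.sub (i2.const_mul c)
    have i5 : Integrable (fun z => F j z * F k z - c * F j z - c * F k z) (μ V) :=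
      i4.sub (i3.const_mul c)
    have e5 : ∫ z, (F j z * F k z - c * F j z - c * F k z + c ^ 2) ∂μ V =
        (∫ z, (F j z * F k z - c * F j z - c * F k z) ∂μ V) + ∫ _z, c ^ 2 ∂μ V :=
      integral_add i5 (integrable_const _)
    have e6 : ∫ z, (F j z * F k z - c * F j z - c * F k z) ∂μ V =
        (∫ z, (F j z * F k z - c * F j z) ∂μ V) - ∫ z, c * F k z ∂μ V :=
      integral_sub i4 (i3.const_mul c)
    have e7 : ∫ z, (F j z * F k z - c * F j z) ∂μ V =
        (∫ z, F j z * F k z ∂μ V) - ∫ z, c * F j z ∂μ V :=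
      integral_sub i1 (i2.const_mul c)
    rw [e5, e6, e7, integral_const_mul, integral_const_mul, e2, e3, e4, integral_const]
    simp only [probReal_univ, smul_eq_mul, one_mul]
    ring
  have hmain : ∫ z, (erg P.a f N z - c) ^ 2 ∂μ V =
      (∑ j ∈ range (N + 1), ∑ k ∈ range (N + 1), (corr μ P.a f (dd j k) - c ^ 2)) /
        ((N + 1 : ℕ) : ℝ) ^ 2 := by
    have e1 : ∀ z, (erg P.a f N z - c) ^ 2 =
        (∑ j ∈ range (N + 1), ∑ k ∈ range (N + 1), (F j z - c) * (F k z - c)) /
          ((N + 1 : ℕ) : ℝ) ^ 2 := by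
      intro z
      rw [herg z, div_pow, sq (∑ j ∈ range (N + 1), (F j z - c)), Finset.sum_mul_sum]
    simp_rw [e1]
    rw [integral_div]
    congr 1
    rw [integral_finsetSum _ fun j hj => integrable_finsetSum _ fun k hk =>
      hint j k (Nat.lt_succ_iff.mp (mem_range.mp hj)) (Nat.lt_succ_iff.mp (mem_range.mp hk))]
    refine Finset.sum_congr rfl fun j hj => ?_
    rw [integral_finsetSum _ fun k hk =>
      hint j k (Nat.lt_succ_iff.mp (mem_range.mp hj)) (Nat.lt_succ_iff.mp (mem_range.mp hk))]
    exact Finset.sum_congr rfl fun k hk =>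
      hval j k (Nat.lt_succ_iff.mp (mem_range.mp hj)) (Nat.lt_succ_iff.mp (mem_range.mp hk))
  change ∫ z, (erg P.a f N z - c) ^ 2 ∂μ V ≤ _
  rw [hmain]
  simp only [Function.comp_apply]
  exact div_le_div_of_nonneg_right
    (Finset.sum_le_sum fun j _ => Finset.sum_le_sum fun k _ => le_abs_self _) (by positivity)

end Pool.Agent.Q28.HP
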