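import Pool.Agent.Q28.HP.Variance
import Pool.Agent.Q28.HP.Count

/-!
# Galois orbits of almost all points of the Hecke orbits of a special point
-/

namespace Pool.Agent.Q28.HP

open Finset MeasureTheory Filter Topology

lemma avg_eq {α : Type*} {S : Set α} (hS : S.Finite) (f : α → ℝ) :
    avg S f = (∑ a ∈ hS.toFinset, f a) / (hS.toFinset.card : ℝ) := by
  unfold avg
  rw [finsum_mem_eq_finite_toFinset_sum f hS, Set.ncard_eq_toFinset_card S hS]

/-- averages over the classes of a partition -/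
lemma avg_partition {α : Type*} {S : Set α} (hS : S.Finite) (hne : S.Nonempty) (cl : α → Set α)
    (h1 : ∀ y ∈ S, cl y ⊆ S) (h2 : ∀ y ∈ S, y ∈ cl y)
    (h3 : ∀ y ∈ S, ∀ z ∈ cl y, cl z = cl y) (f : α → ℝ) (c ε : ℝ)
    (h : ∀ y ∈ S, |avg (cl y) f - c| ≤ ε) : |avg S f - c| ≤ ε := by
  classical
  set T := hS.toFinset with hT
  have hTm : ∀ y, y ∈ T ↔ y ∈ S := fun y => Set.Finite.mem_toFinset hS
  have hcf : ∀ y ∈ S, (cl y).Finite := fun y hy => hS.subset (h1 y hy)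
  have hsym : ∀ y ∈ S, ∀ z ∈ S, (z ∈ cl y ↔ y ∈ cl z) := by
    intro y hy z hz
    constructor
    · intro h4; rw [h3 y hy z h4]; exact h2 y hy
    · intro h4; rw [h3 z hz y h4]; exact h2 z hz
  have hTne : T.Nonempty := by
    obtain ⟨y, hy⟩ := hne
    exact ⟨y, (hTm y).mpr hy⟩
  have hT0 : (0 : ℝ) < T.card := by exact_mod_cast hTne.card_pos
  have key : ∑ y ∈ T, avg (cl y) f = ∑ z ∈ T, f z := by
    have e1 : ∀ y ∈ T, avg (cl y) f =
        ∑ z ∈ T, if z ∈ cl y then f z / ((cl y).ncard : ℝ) else 0 := by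
      intro y hy
      have hy' := (hTm y).mp hy
      rw [avg_eq (hcf y hy'), ← Set.ncard_eq_toFinset_card (cl y) (hcf y hy'), Finset.sum_div,
        ← Finset.sum_filter]
      refine Finset.sum_congr ?_ fun _ _ => rfl
      ext z
      rw [Set.Finite.mem_toFinset, Finset.mem_filter, hTm]
      exact ⟨fun hz => ⟨h1 y hy' hz, hz⟩, fun hz => hz.2⟩
    rw [Finset.sum_congr rfl e1, Finset.sum_comm]
    refine Finset.sum_congr rfl fun z hz => ?_
    have hz' := (hTm z).mp hz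
    have e2 : ∀ y ∈ T, (if z ∈ cl y then f z / ((cl y).ncard : ℝ) else 0) =
        if y ∈ cl z then f z / ((cl z).ncard : ℝ) else 0 := by
      intro y hy
      have hy' := (hTm y).mp hy
      by_cases h4 : z ∈ cl y
      · rw [if_pos h4, if_pos ((hsym y hy' z hz').mp h4), h3 y hy' z h4]
      · rw [if_neg h4, if_neg fun h5 => h4 ((hsym y hy' z hz').mpr h5)]
    rw [Finset.sum_congr rfl e2, ← Finset.sum_filter, Finset.sum_const, nsmul_eq_mul]
    have e3 : (T.filter fun y => y ∈ cl z) = (hcf z hz').toFinset := by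
      ext y
      rw [Set.Finite.mem_toFinset, Finset.mem_filter, hTm]
      exact ⟨fun hy => hy.2, fun hy => ⟨h1 z hz' hy, hy⟩⟩
    rw [e3, ← Set.ncard_eq_toFinset_card (cl z) (hcf z hz')]
    have e4 : ((cl z).ncard : ℝ) ≠ 0 := by
      have : 0 < (cl z).ncard := (Set.ncard_pos (hcf z hz')).mpr ⟨z, h2 z hz'⟩
      exact_mod_cast this.ne'
    field_simp
  have h5 : avg S f - c = (∑ y ∈ T, (avg (cl y) f - c)) / T.card := by
    rw [avg_eq hS, ← hT, Finset.sum_sub_distrib, key, Finset.sum_const, nsmul_eq_mul]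
    field_simp
  rw [h5, abs_div, abs_of_pos hT0, div_le_iff₀ hT0]
  refine (Finset.abs_sum_le_sum_abs _ _).trans ?_
  calc ∑ y ∈ T, |avg (cl y) f - c| ≤ ∑ _y ∈ T, ε :=
        Finset.sum_le_sum fun y hy => h y ((hTm y).mp hy)
    _ = ε * T.card := by rw [Finset.sum_const, nsmul_eq_mul, mul_comm]

lemma avg_sub_le {α : Type*} {S : Set α} (hS : S.Finite) (hne : S.Nonempty) (f g : α → ℝ) (ε : ℝ)
    (h : ∀ a, |f a - g a| ≤ ε) : |avg S f - avg S g| ≤ ε := by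
  have hT0 : (0 : ℝ) < hS.toFinset.card := by
    have : hS.toFinset.Nonempty := by simpa using hne
    exact_mod_cast this.card_pos
  rw [avg_eq hS, avg_eq hS, ← sub_div, ← Finset.sum_sub_distrib, abs_div, abs_of_pos hT0,
    div_le_iff₀ hT0]
  refine (Finset.abs_sum_le_sum_abs _ _).trans ?_
  calc ∑ y ∈ hS.toFinset, |f y - g y| ≤ ∑ _y ∈ hS.toFinset, ε :=
        Finset.sum_le_sum fun y _ => h y
    _ = ε * hS.toFinset.card := by rw [Finset.sum_const, nsmul_eq_mul, mul_comm]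

section Orbits

variable {Γ : Type} [Group Γ] {Z : Type*} [MulAction Γ Z] (Γ' : Subgroup Γ)

/-- the orbit of a subgroup -/
def orb (z : Z) : Set Z := {w | ∃ τ ∈ Γ', τ • z = w}

lemma orb_eq {z w : Z} (h : w ∈ orb Γ' z) : orb Γ' w = orb Γ' z := by
  obtain ⟨τ, hτ, rfl⟩ := h
  ext v
  constructor
  · rintro ⟨τ', hτ', rfl⟩
    exact ⟨τ' * τ, Γ'.mul_mem hτ' hτ, mul_smul _ _ _⟩
  · rintro ⟨τ', hτ', rfl⟩
    exact ⟨τ' * τ⁻¹, Γ'.mul_mem hτ' (Γ'.inv_mem hτ), by rw [mul_smul, inv_smul_smul]⟩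

lemma exists_reps (h : Γ'.FiniteIndex) : ∃ T : Finset Γ, ∀ σ : Γ, ∃ t ∈ T, σ * t⁻¹ ∈ Γ' := by
  classical
  have : Finite (Γ ⧸ Γ') := Subgroup.finite_quotient_of_finiteIndex
  have : Fintype (Γ ⧸ Γ') := Fintype.ofFinite _
  refine ⟨Finset.univ.image fun q : Γ ⧸ Γ' => q.out⁻¹, fun σ => ?_⟩
  refine ⟨(QuotientGroup.mk σ⁻¹ : Γ ⧸ Γ').out⁻¹, Finset.mem_image.mpr ⟨_, Finset.mem_univ _, rfl⟩,
    ?_⟩
  have h1 : (QuotientGroup.mk (QuotientGroup.mk σ⁻¹ : Γ ⧸ Γ').out : Γ ⧸ Γ') =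
      QuotientGroup.mk σ⁻¹ := by simp
  rw [QuotientGroup.eq] at h1
  have h2 := Γ'.inv_mem h1
  simpa using h2

lemma orbit_finite (h : Γ'.FiniteIndex) (z : Z) (hz : ∀ σ : Γ, (orb Γ' (σ • z)).Finite) :
    (MulAction.orbit Γ z).Finite := by
  obtain ⟨T, hT⟩ := exists_reps Γ' h
  refine (Set.Finite.biUnion T.finite_toSet fun t _ => hz t).subset ?_
  rintro _ ⟨σ, rfl⟩
  obtain ⟨t, ht, h1⟩ := hT σ
  simp only [Set.mem_iUnion]
  refine ⟨t, ht, σ * t⁻¹, h1, ?_⟩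
  rw [smul_smul, inv_mul_cancel_right]

/-- the deviation of the average over an orbit -/
lemma sq_orbit_le (T : Finset Γ) (hT : ∀ σ : Γ, ∃ t ∈ T, σ * t⁻¹ ∈ Γ') (z : Z)
    (hz : (MulAction.orbit Γ z).Finite) (f : Z → ℝ) (c : ℝ) :
    (avg (MulAction.orbit Γ z) f - c) ^ 2 ≤ ∑ t ∈ T, (avg (orb Γ' (t • z)) f - c) ^ 2 := by
  have h0 : 0 ≤ ∑ t ∈ T, (avg (orb Γ' (t • z)) f - c) ^ 2 :=
    Finset.sum_nonneg fun t _ => sq_nonneg _
  have h1 : |avg (MulAction.orbit Γ z) f - c| ≤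
      Real.sqrt (∑ t ∈ T, (avg (orb Γ' (t • z)) f - c) ^ 2) := by
    refine avg_partition hz ⟨z, MulAction.mem_orbit_self z⟩ (orb Γ') ?_ ?_ ?_ f c _ ?_
    · rintro _ ⟨σ, rfl⟩ w ⟨τ, -, rfl⟩
      exact ⟨τ * σ, mul_smul _ _ _⟩
    · intro y _
      exact ⟨1, Γ'.one_mem, one_smul _ _⟩
    · intro y _ w hw
      exact orb_eq Γ' hw
    · rintro _ ⟨σ, rfl⟩
      obtain ⟨t, ht, h2⟩ := hT σ
      have h3 : orb Γ' (σ • z) = orb Γ' (t • z) := by
        refine orb_eq Γ' ⟨σ * t⁻¹, h2, ?_⟩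
        rw [smul_smul, inv_mul_cancel_right]
      change |avg (orb Γ' (σ • z)) f - c| ≤ _
      rw [h3]
      refine Real.abs_le_sqrt ?_
      exact Finset.single_le_sum (f := fun t => (avg (orb Γ' (t • z)) f - c) ^ 2)
        (fun t _ => sq_nonneg _) ht
  calc (avg (MulAction.orbit Γ z) f - c) ^ 2 = |avg (MulAction.orbit Γ z) f - c| ^ 2 :=
        (sq_abs _).symm
    _ ≤ (Real.sqrt (∑ t ∈ T, (avg (orb Γ' (t • z)) f - c) ^ 2)) ^ 2 :=
        pow_le_pow_left₀ (abs_nonneg _) h1 2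
    _ = _ := Real.sq_sqrt h0

end Orbits

variable {D : Datum} {Kp : Subgroup D.B} {g : ℕ → D.A} {Γ : Type} [Group Γ]
  [MulAction Γ (Sh D Kp)] {Γ' : Subgroup Γ} {P : Γ → CM D}
  {μ : Γ → ∀ V : Subgroup D.B, Measure (Sh D V)}

/-- the conjugates of the points of the Hecke orbit -/
lemma orb_hecke {x₀ : D.X} {u₀ : D.A} {v₀ : D.B}
    (hG : GaloisFacts Kp Γ' (point D Kp x₀ u₀ v₀) P)
    {g₁ : D.A} (hH : HeckeEquivariant Kp Γ g₁) (σ : Γ) :
    ∃ e : HeckeIndex D g₁ ≃ HeckeIndex D g₁, ∀ k,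
      orb Γ' (σ • heckePoint D Kp g₁ x₀ u₀ v₀ k) =
        Set.range fun s => (P σ).pt Kp s ((P σ).b * ((e k).out : D.A) * g₁) := by
  have h1 := hG.conjugate σ
  unfold CM.pt at h1
  obtain ⟨e, he⟩ := hH σ _ _ _ _ _ _ h1
  refine ⟨e, fun k => ?_⟩
  rw [← hG.reciprocity σ, he k]
  have h2 : heckePoint D Kp g₁ (P σ).h ((P σ).rA 1 * (P σ).b) ((P σ).rB 1 * (P σ).v) (e k) =
      (P σ).pt Kp 1 ((P σ).b * ((e k).out : D.A) * g₁) := by
    unfold heckePoint CM.pt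
    rw [← mul_assoc, ← mul_assoc]
  rw [h2]
  rfl

lemma orbit_hecke_finite (hK : IsLevel Kp Kp) (hF : ∀ σ, Facts Kp (μ σ) g (P σ)) {x₀ : D.X}
    {u₀ : D.A} {v₀ : D.B}
    (hG : GaloisFacts Kp Γ' (point D Kp x₀ u₀ v₀) P) (hH : ∀ n, HeckeEquivariant Kp Γ (g n))
    (n : ℕ) (k : HeckeIndex D (g n)) :
    (MulAction.orbit Γ (heckePoint D Kp (g n) x₀ u₀ v₀ k)).Finite := by
  refine orbit_finite Γ' hG.finite_index _ fun σ => ?_
  obtain ⟨e, he⟩ := orb_hecke hG (hH n) σ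
  rw [he k]
  exact (hF σ).finite Kp hK _

/-- **the variance theorem** for the Galois orbits -/
theorem galois_variance (hK : IsLevel Kp Kp) (hF : ∀ σ, Facts Kp (μ σ) g (P σ)) {x₀ : D.X}
    {u₀ : D.A} {v₀ : D.B}
    (hG : GaloisFacts Kp Γ' (point D Kp x₀ u₀ v₀) P) (hH : ∀ n, HeckeEquivariant Kp Γ (g n))
    (hfin : ∀ n, Finite (HeckeIndex D (g n))) {m : Measure (Sh D Kp)} (hm : ∀ σ, μ σ Kp = m)
    (f : Sh D Kp → ℝ) (hf : Continuous f) (hc : HasCompactSupport f) :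
    Tendsto (fun n => (∑ᶠ k : HeckeIndex D (g n),
      (avg (MulAction.orbit Γ (heckePoint D Kp (g n) x₀ u₀ v₀ k)) f - ∫ w, f w ∂m) ^ 2) /
        Nat.card (HeckeIndex D (g n))) atTop (𝓝 0) := by
  classical
  obtain ⟨T, hT⟩ := exists_reps Γ' hG.finite_index
  have h1 : Tendsto (fun n => ∑ t ∈ T, var Kp (P t) (g n) f (∫ w, f w ∂m)) atTop (𝓝 0) := by
    have h2 := tendsto_finsetSum T fun t _ => by
      have h3 := variance (hF t) hK hfin f hf hc
      rw [hm t] at h3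
      exact h3
    simpa using h2
  refine squeeze_zero (fun n => div_nonneg (finsum_nonneg fun k => sq_nonneg _) (by positivity))
    (fun n => ?_) h1
  have := hfin n
  have : Fintype (HeckeIndex D (g n)) := Fintype.ofFinite _
  unfold var
  rw [← Finset.sum_div]
  refine div_le_div_of_nonneg_right ?_ (by positivity)
  rw [finsum_eq_sum_of_fintype]
  simp_rw [finsum_eq_sum_of_fintype]
  calc ∑ k : HeckeIndex D (g n),
      (avg (MulAction.orbit Γ (heckePoint D Kp (g n) x₀ u₀ v₀ k)) f - ∫ w, f w ∂m) ^ 2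
      ≤ ∑ k : HeckeIndex D (g n), ∑ t ∈ T,
        (avg (orb Γ' (t • heckePoint D Kp (g n) x₀ u₀ v₀ k)) f - ∫ w, f w ∂m) ^ 2 :=
        Finset.sum_le_sum fun k _ => sq_orbit_le Γ' T hT _
          (orbit_hecke_finite hK hF hG hH n k) f _
    _ = ∑ t ∈ T, ∑ k : HeckeIndex D (g n),
        (avg (orb Γ' (t • heckePoint D Kp (g n) x₀ u₀ v₀ k)) f - ∫ w, f w ∂m) ^ 2 :=
        Finset.sum_comm
    _ = _ := by
        refine Finset.sum_congr rfl fun t _ => ?_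
        obtain ⟨e, he⟩ := orb_hecke hG (hH n) t
        rw [← Equiv.sum_comp e fun k => (avg (Set.range fun s =>
          (P t).pt Kp s ((P t).b * (k.out : D.A) * g n)) f - ∫ w, f w ∂m) ^ 2]
        exact Finset.sum_congr rfl fun k _ => by rw [he k]

variable [T2Space (Sh D Kp)] [LocallyCompactSpace (Sh D Kp)] [SecondCountableTopology (Sh D Kp)]

/-- **equidistribution for almost all points** -/
theorem almost_all (hK : IsLevel Kp Kp) (hF : ∀ σ, Facts Kp (μ σ) g (P σ)) {x₀ : D.X}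
    {u₀ : D.A} {v₀ : D.B}
    (hG : GaloisFacts Kp Γ' (point D Kp x₀ u₀ v₀) P) (hH : ∀ n, HeckeEquivariant Kp Γ (g n))
    (hfin : ∀ n, Finite (HeckeIndex D (g n))) {m : Measure (Sh D Kp)} (hm : ∀ σ, μ σ Kp = m) :
    ∃ bad : ∀ n, Set (HeckeIndex D (g n)),
      Tendsto (fun n => ((bad n).ncard : ℝ) / Nat.card (HeckeIndex D (g n))) atTop (𝓝 0) ∧
      ∀ k : ∀ n, HeckeIndex D (g n), (∀ᶠ n in atTop, k n ∉ bad n) →
        ∀ f : Sh D Kp → ℝ, Continuous f → HasCompactSupport f →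
        Tendsto (fun n => avg (MulAction.orbit Γ (heckePoint D Kp (g n) x₀ u₀ v₀ (k n))) f) atTop
          (𝓝 (∫ w, f w ∂m)) := by
  obtain ⟨φ, hφ, hd⟩ := exists_dense_family (S := Sh D Kp)
  have : IsProbabilityMeasure m := by
    rw [← hm 1]
    exact (hF 1).prob Kp hK
  obtain ⟨bad, hb1, hb2⟩ := exists_bad hfin (fun n k i =>
    avg (MulAction.orbit Γ (heckePoint D Kp (g n) x₀ u₀ v₀ k)) (φ i) - ∫ w, φ i w ∂m) fun i =>
    galois_variance hK hF hG hH hfin hm (φ i) (hφ i).1 (hφ i).2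
  refine ⟨bad, hb1, fun k hk f hf hc => ?_⟩
  rw [Metric.tendsto_atTop']
  intro ε hε
  obtain ⟨i, hi⟩ := hd f hf hc (ε / 4) (by positivity)
  have h1 := Metric.tendsto_atTop'.mp (hb2 k hk i) (ε / 4) (by positivity)
  obtain ⟨N, hN⟩ := h1
  refine ⟨N, fun n hn => ?_⟩
  have h2 := hN n hn
  rw [Real.dist_eq, sub_zero] at h2
  have hfinite := orbit_hecke_finite hK hF hG hH n (k n)
  have h3 := avg_sub_le hfinite ⟨_, MulAction.mem_orbit_self _⟩ f (φ i) (ε / 4) hi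
  have h4 : |∫ w, f w ∂m - ∫ w, φ i w ∂m| ≤ ε / 4 := by
    rw [← integral_sub (hf.integrable_of_hasCompactSupport hc)
      ((hφ i).1.integrable_of_hasCompactSupport (hφ i).2), ← Real.norm_eq_abs]
    refine (norm_integral_le_of_norm_le_const (C := ε / 4)
      (Filter.Eventually.of_forall fun y => ?_)).trans ?_
    · rw [Real.norm_eq_abs]; exact hi y
    · simp
  rw [Real.dist_eq]
  rw [abs_le] at h3 h4
  rw [abs_lt] at h2 ⊢
  constructor <;> linarith [h2.1, h2.2, h3.1, h3.2, h4.1, h4.2]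

end Pool.Agent.Q28.HP
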