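import Pool.Agent.Q28.HP.Defs

/-!
# Averages over the orbits of commutative groups
-/

namespace Pool.Agent.Q28.HP

open Finset

section Mean

variable {I : Type} [CommGroup I] {Z : Type*}

/-- the map `z` is the orbit map of an action -/
def IsOrbitMap (z : I → Z) : Prop := ∀ s t, z s = z t → ∀ c, z (c * s) = z (c * t)

/-- the stabiliser -/
def fixer (z : I → Z) (hz : IsOrbitMap z) : Subgroup I where
  carrier := {c | z c = z 1}
  one_mem' := rfl
  mul_mem' := by
    intro a b ha hb
    have h1 := hz b 1 hb a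
    rw [mul_one] at h1
    exact h1.trans ha
  inv_mem' := by
    intro a ha
    have h1 := hz a 1 ha a⁻¹
    rw [inv_mul_cancel, mul_one] at h1
    exact h1.symm

lemma mem_fixer {z : I → Z} {hz : IsOrbitMap z} {c : I} : c ∈ fixer z hz ↔ z c = z 1 := Iff.rfl

lemma fixer_inv {z : I → Z} (hz : IsOrbitMap z) {c : I} (hc : c ∈ fixer z hz) (s : I) :
    z (c * s) = z s := by
  have h1 := hz c 1 hc s
  rw [mul_one, mul_comm] at h1
  exact h1

lemma fixer_finite {z : I → Z} (hz : IsOrbitMap z) (hf : (Set.range z).Finite) :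
    (fixer z hz).FiniteIndex := by
  have : Finite (Set.range z) := hf.to_subtype
  have hlift : ∀ a b : I, (QuotientGroup.leftRel (fixer z hz)) a b → z a = z b := by
    intro a b hab
    rw [QuotientGroup.leftRel_apply] at hab
    have h1 := fixer_inv hz hab a
    rw [mul_comm, mul_inv_cancel_left] at h1
    exact h1.symm
  let f : I ⧸ fixer z hz → Set.range z := fun q =>
    ⟨Quotient.lift z hlift q, by
      obtain ⟨a, rfl⟩ := QuotientGroup.mk_surjective q
      exact ⟨a, rfl⟩⟩
  have hinj : Function.Injective f := by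
    intro p q hpq
    obtain ⟨a, rfl⟩ := QuotientGroup.mk_surjective p
    obtain ⟨b, rfl⟩ := QuotientGroup.mk_surjective q
    have h1 : z a = z b := congrArg Subtype.val hpq
    rw [QuotientGroup.eq, mem_fixer]
    have h2 := hz b a h1.symm a⁻¹
    rw [inv_mul_cancel] at h2
    exact h2
  have : Finite (I ⧸ fixer z hz) := Finite.of_injective f hinj
  exact Subgroup.finiteIndex_of_finite_quotient

/-- the mean of a function which is invariant under the subgroup `R` -/
noncomputable def mean (R : Subgroup I) [Fintype (I ⧸ R)] (φ : I → ℝ) : ℝ :=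
  (∑ t : I ⧸ R, φ t.out) / Fintype.card (I ⧸ R)

variable (R : Subgroup I) [Fintype (I ⧸ R)]

omit [Fintype (I ⧸ R)] in
lemma eq_of_mk {α : Type*} {φ : I → α} (hφ : ∀ c ∈ R, ∀ s, φ (c * s) = φ s) {a b : I}
    (h : (QuotientGroup.mk a : I ⧸ R) = QuotientGroup.mk b) : φ a = φ b := by
  rw [QuotientGroup.eq] at h
  have h1 := hφ _ h a
  rw [mul_comm, mul_inv_cancel_left] at h1
  exact h1.symm

lemma mean_shift {φ : I → ℝ} (hφ : ∀ c ∈ R, ∀ s, φ (c * s) = φ s) (s₁ : I) :
    mean R (fun s => φ (s * s₁)) = mean R φ := by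
  unfold mean
  congr 1
  rw [← Equiv.sum_comp (Equiv.mulRight (QuotientGroup.mk s₁ : I ⧸ R)) fun t => φ t.out]
  refine Finset.sum_congr rfl fun t _ => eq_of_mk R hφ ?_
  rw [QuotientGroup.mk_mul]
  simp

lemma mean_sq (φ : I → ℝ) : (mean R φ) ^ 2 ≤ mean R fun s => φ s ^ 2 := by
  unfold mean
  have h0 : (0 : ℝ) < Fintype.card (I ⧸ R) := by exact_mod_cast Fintype.card_pos
  rw [div_pow, div_le_div_iff₀ (by positivity) h0]
  have h1 := sq_sum_le_card_mul_sum_sq (s := (Finset.univ : Finset (I ⧸ R)))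
    (f := fun t => φ t.out)
  rw [Finset.card_univ] at h1
  calc (∑ t : I ⧸ R, φ t.out) ^ 2 * (Fintype.card (I ⧸ R) : ℝ)
      ≤ ((Fintype.card (I ⧸ R) : ℝ) * ∑ t : I ⧸ R, φ t.out ^ 2) * (Fintype.card (I ⧸ R) : ℝ) :=
        mul_le_mul_of_nonneg_right h1 h0.le
    _ = (∑ t : I ⧸ R, φ t.out ^ 2) * (Fintype.card (I ⧸ R) : ℝ) ^ 2 := by ring

lemma mean_le {φ : I → ℝ} {B : ℝ} (h : ∀ s, φ s ≤ B) : mean R φ ≤ B := by
  unfold mean
  have h0 : (0 : ℝ) < Fintype.card (I ⧸ R) := by exact_mod_cast Fintype.card_pos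
  rw [div_le_iff₀ h0]
  calc ∑ t : I ⧸ R, φ t.out ≤ ∑ _t : I ⧸ R, B := Finset.sum_le_sum fun t _ => h _
    _ = B * Fintype.card (I ⧸ R) := by
      rw [Finset.sum_const, Finset.card_univ, nsmul_eq_mul, mul_comm]

lemma mean_sub_const (φ : I → ℝ) (c : ℝ) : mean R (fun s => φ s - c) = mean R φ - c := by
  unfold mean
  have h0 : (Fintype.card (I ⧸ R) : ℝ) ≠ 0 := by exact_mod_cast Fintype.card_ne_zero
  rw [Finset.sum_sub_distrib, Finset.sum_const, Finset.card_univ, nsmul_eq_mul]
  field_simp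

lemma mean_sum {ι : Type*} (T : Finset ι) (φ : ι → I → ℝ) :
    mean R (fun s => ∑ j ∈ T, φ j s) = ∑ j ∈ T, mean R (φ j) := by
  unfold mean
  rw [Finset.sum_comm, Finset.sum_div]

lemma mean_div (φ : I → ℝ) (c : ℝ) : mean R (fun s => φ s / c) = mean R φ / c := by
  unfold mean
  rw [← Finset.sum_div, div_right_comm]

/-- the uniform average over the orbit is the mean -/
lemma avg_range {z : I → Z} (hz : IsOrbitMap z) (hf : (Set.range z).Finite)
    (hR : R ≤ fixer z hz) (f : Z → ℝ) : avg (Set.range z) f = mean R fun s => f (z s) := by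
  classical
  have hinv : ∀ c ∈ R, ∀ s, z (c * s) = z s := fun c hc s => fixer_inv hz (hR hc) s
  set T := hf.toFinset with hT
  have hmaps : ∀ t : I ⧸ R, t ∈ (Finset.univ : Finset (I ⧸ R)) → z t.out ∈ T := by
    intro t _
    rw [hT, Set.Finite.mem_toFinset]
    exact ⟨_, rfl⟩
  set m := (Finset.univ.filter fun t : I ⧸ R => z t.out = z 1).card with hm
  have hcard : ∀ p ∈ T, (Finset.univ.filter fun t : I ⧸ R => z t.out = p).card = m := by
    intro p hp
    rw [hT, Set.Finite.mem_toFinset] at hp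
    obtain ⟨s, rfl⟩ := hp
    rw [hm]
    refine Finset.card_bij (fun t _ => t * (QuotientGroup.mk s)⁻¹) ?_ ?_ ?_
    · intro t ht
      rw [Finset.mem_filter] at ht ⊢
      refine ⟨Finset.mem_univ _, ?_⟩
      have h1 : z (t * (QuotientGroup.mk s : I ⧸ R)⁻¹).out = z (s⁻¹ * t.out) := by
        refine eq_of_mk R hinv ?_
        rw [QuotientGroup.mk_mul, QuotientGroup.mk_inv]
        simp [mul_comm]
      rw [h1, hz _ _ ht.2 s⁻¹, inv_mul_cancel]
    · intro t _ t' _ h
      exact mul_right_cancel h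
    · intro t ht
      rw [Finset.mem_filter] at ht
      refine ⟨t * QuotientGroup.mk s, ?_, by simp⟩
      rw [Finset.mem_filter]
      refine ⟨Finset.mem_univ _, ?_⟩
      have h1 : z (t * (QuotientGroup.mk s : I ⧸ R)).out = z (s * t.out) := by
        refine eq_of_mk R hinv ?_
        rw [QuotientGroup.mk_mul]
        simp [mul_comm]
      rw [h1, hz _ _ ht.2 s, mul_one]
  have hsum : ∀ f : Z → ℝ, ∑ t : I ⧸ R, f (z t.out) = m * ∑ p ∈ T, f p := by
    intro f
    rw [← Finset.sum_fiberwise_of_maps_to hmaps, Finset.mul_sum]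
    refine Finset.sum_congr rfl fun p hp => ?_
    rw [Finset.sum_congr rfl (g := fun _ => f p) fun t ht => by rw [(Finset.mem_filter.mp ht).2],
      Finset.sum_const, hcard p hp, nsmul_eq_mul]
  have hone := hsum fun _ => 1
  rw [Finset.sum_const, Finset.sum_const, Finset.card_univ, nsmul_eq_mul, nsmul_eq_mul, mul_one,
    mul_one] at hone
  have hm0 : (m : ℝ) ≠ 0 := by
    intro h
    rw [h, zero_mul] at hone
    exact Fintype.card_ne_zero (α := I ⧸ R) (by exact_mod_cast hone)
  unfold avg mean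
  rw [finsum_mem_eq_finite_toFinset_sum f hf, Set.ncard_eq_toFinset_card _ hf, hsum f, hone,
    mul_div_mul_left _ _ hm0]

/-- the inequality behind the argument: an average over an orbit is bounded by ergodic averages -/
lemma sq_avg_le {Z' : Type*} {y : I → Z'} {z : I → Z} (hy : IsOrbitMap y)
    (hyf : (Set.range y).Finite) (hRy : R ≤ fixer y hy) (s₀ : I) (N : ℕ) (hN : 0 < N)
    (f : Z' → ℝ) (ψ : Z → ℝ)
    (h : ∀ s, ψ (z s) = (∑ j ∈ Finset.range N, f (y (s * s₀ ^ j))) / N) (c : ℝ) :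
    (avg (Set.range y) f - c) ^ 2 ≤ mean R fun s => (ψ (z s) - c) ^ 2 := by
  have hN0 : (N : ℝ) ≠ 0 := by exact_mod_cast hN.ne'
  have h1 : avg (Set.range y) f - c = mean R fun s => ψ (z s) - c := by
    rw [mean_sub_const, avg_range R hy hyf hRy f]
    congr 1
    have e1 : (fun s => ψ (z s)) = fun s => (∑ j ∈ Finset.range N, f (y (s * s₀ ^ j))) / N :=
      funext h
    rw [e1, mean_div, mean_sum, Finset.sum_congr rfl (g := fun _ => mean R fun s => f (y s)),
      Finset.sum_const, Finset.card_range, nsmul_eq_mul]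
    · field_simp
    · intro j _
      exact mean_shift R (φ := fun s => f (y s)) (fun c hc s => by
        rw [fixer_inv hy (hRy hc) s]) _
  rw [h1]
  exact mean_sq R _

end Mean

end Pool.Agent.Q28.HP
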