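import Pool.Agent.Q28.HP.Mean

/-!
# Points of Shimura varieties, translations and Hecke orbits
-/

namespace Pool.Agent.Q28.HP

open Finset

variable {D : Datum}

lemma point_eq {V : Subgroup D.B} {x x' : D.X} {u u' : D.A} {v v' : D.B} :
    point D V x u v = point D V x' u' v' ↔ ∃ q : D.GQ, ∃ k ∈ D.K, ∃ w ∈ V,
      x' = q • x ∧ u' = D.toA q * u * k ∧ v' = D.toB q * v * w := by
  have h0 : point D V x u v = point D V x' u' v' ↔ (D.setoid V) (x, u, v) (x', u', v') :=
    Quotient.eq (r := D.setoid V)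
  rw [h0]
  constructor
  · rintro ⟨q, k, hk, w, hw, h⟩
    exact ⟨q, k, hk, w, hw, congrArg (fun t => t.1) h, congrArg (fun t => t.2.1) h,
      congrArg (fun t => t.2.2) h⟩
  · rintro ⟨q, k, hk, w, hw, rfl, rfl, rfl⟩
    exact ⟨q, k, hk, w, hw, rfl⟩

lemma exists_point {V : Subgroup D.B} (z : Sh D V) : ∃ x u v, z = point D V x u v := by
  obtain ⟨⟨x, u, v⟩, rfl⟩ := Quotient.exists_rep z
  exact ⟨x, u, v, rfl⟩

lemma right_point (c : D.B) {V W : Subgroup D.B} (h : ∀ w ∈ V, c⁻¹ * w * c ∈ W) (x : D.X)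
    (u : D.A) (v : D.B) : right D c h (point D V x u v) = point D W x u (v * c) := rfl

lemma continuous_right (c : D.B) {V W : Subgroup D.B} (h : ∀ w ∈ V, c⁻¹ * w * c ∈ W) :
    Continuous (right D c h) := by
  refine Continuous.quotient_map' ?_ _
  fun_prop

lemma right_right (c c' : D.B) {V W W' : Subgroup D.B} (h : ∀ w ∈ V, c⁻¹ * w * c ∈ W)
    (h' : ∀ w ∈ W, c'⁻¹ * w * c' ∈ W') (c'' : D.B) (h'' : ∀ w ∈ V, c''⁻¹ * w * c'' ∈ W')
    (e : c'' = c * c') (z : Sh D V) : right D c' h' (right D c h z) = right D c'' h'' z := by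
  obtain ⟨x, u, v, rfl⟩ := exists_point z
  rw [right_point, right_point, right_point, e, mul_assoc]

/-- the conjugates of a special point -/
lemma pt_isOrbitMap (P : CM D) (V : Subgroup D.B) (u : D.A) :
    IsOrbitMap fun s => P.pt V s u := by
  intro s t hst c
  simp only [CM.pt] at hst ⊢
  rw [point_eq] at hst ⊢
  obtain ⟨q, k, hk, w, hw, h1, h2, h3⟩ := hst
  refine ⟨q, k, hk, w, hw, h1, ?_, ?_⟩
  · have h4 := (P.commutes q h1.symm c).1.eq
    rw [map_mul, map_mul, mul_assoc, h2]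
    simp only [← mul_assoc]
    rw [h4]
  · have h4 := (P.commutes q h1.symm c).2.eq
    rw [map_mul, map_mul, mul_assoc, h3]
    simp only [← mul_assoc]
    rw [h4]

lemma right_pt (P : CM D) {V W : Subgroup D.B} (j : ℕ)
    (h : ∀ w ∈ V, (P.a ^ j)⁻¹ * w * P.a ^ j ∈ W) (s : P.I) (u : D.A) :
    right D (P.a ^ j) h (P.pt V s u) = P.pt W (s * P.s₀ ^ j) u := by
  unfold CM.pt
  rw [right_point]
  have h1 : P.v * P.a ^ j = P.rB P.s₀ ^ j * P.v := by
    have h2 : P.a ^ j = P.v⁻¹ * P.rB P.s₀ ^ j * P.v := by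
      unfold CM.a
      have := conj_pow (i := j) (a := P.v⁻¹) (b := P.rB P.s₀)
      simpa using this
    rw [h2]
    group
  simp only [map_mul, map_pow, P.rA_s₀, one_pow, mul_one]
  rw [mul_assoc, h1, mul_assoc]

lemma heckePoint_congr {V : Subgroup D.B} (g : D.A) (x : D.X) (u : D.A) (v : D.B)
    {k : D.K} {t : HeckeIndex D g} (h : (QuotientGroup.mk k : HeckeIndex D g) = t) :
    heckePoint D V g x u v t = point D V x (u * (k : D.A) * g) v := by
  unfold heckePoint
  have h1 : (QuotientGroup.mk k : HeckeIndex D g) = QuotientGroup.mk t.out := by rw [h]; simp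
  rw [QuotientGroup.eq] at h1
  have h2 : g⁻¹ * ((k⁻¹ * t.out : D.K) : D.A) * g ∈ D.K := mem_heckeSub.mp h1
  rw [point_eq]
  refine ⟨1, _, D.K.inv_mem h2, 1, V.one_mem, by simp, ?_, by simp⟩
  simp only [map_one, one_mul, Subgroup.coe_mul, Subgroup.coe_inv]
  group

lemma hecke_congr {V : Subgroup D.B} (g : D.A) (F : Sh D V → ℝ) {x x' : D.X} {u u' : D.A}
    {v v' : D.B} (h : point D V x u v = point D V x' u' v') :
    hecke D g F x u v = hecke D g F x' u' v' := by
  rw [point_eq] at h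
  obtain ⟨q, k, hk, w, hw, rfl, rfl, rfl⟩ := h
  unfold hecke
  congr 1
  let e : HeckeIndex D g ≃ HeckeIndex D g := MulAction.toPerm (⟨k, hk⟩ : D.K)
  rw [← finsum_comp_equiv e]
  refine finsum_congr fun t => ?_
  congr 1
  have h1 : (QuotientGroup.mk (⟨k, hk⟩ * t.out) : HeckeIndex D g) = e t := by
    change _ = (⟨k, hk⟩ : D.K) • t
    conv_rhs => rw [← QuotientGroup.out_eq' t]
    rfl
  rw [heckePoint_congr g x u v h1, heckePoint, point_eq]
  refine ⟨q, 1, D.K.one_mem, w, hw, rfl, ?_, rfl⟩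
  simp only [Subgroup.coe_mul, mul_one, mul_assoc]

/-- the intersection of the levels `a^j Kp a^(-j)` for `j ≤ N` -/
def level (a : D.B) (Kp : Subgroup D.B) : ℕ → Subgroup D.B
  | 0 => Kp
  | N + 1 => level a Kp N ⊓ conj D (a ^ (N + 1)) Kp

lemma conj_open {c : D.B} {V : Subgroup D.B} (hV : IsOpen (V : Set D.B)) :
    IsOpen (conj D c V : Set D.B) := by
  have h : (conj D c V : Set D.B) = (fun w => c⁻¹ * w * c) ⁻¹' (V : Set D.B) := by
    ext w
    exact mem_conj
  rw [h]
  exact hV.preimage (by fun_prop)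

lemma conj_compact {c : D.B} {V : Subgroup D.B} (hV : IsCompact (V : Set D.B)) :
    IsCompact (conj D c V : Set D.B) := by
  have h : (conj D c V : Set D.B) = (fun w => c * w * c⁻¹) '' (V : Set D.B) := by
    unfold conj
    rw [Subgroup.coe_map]
    rfl
  rw [h]
  exact hV.image (by fun_prop)

lemma inf_open {V W : Subgroup D.B} (hV : IsOpen (V : Set D.B)) (hW : IsOpen (W : Set D.B)) :
    IsOpen ((V ⊓ W : Subgroup D.B) : Set D.B) := hV.inter hW

lemma inf_compact {V W : Subgroup D.B} (hV : IsCompact (V : Set D.B))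
    (hW : IsCompact (W : Set D.B)) : IsCompact ((V ⊓ W : Subgroup D.B) : Set D.B) :=
  hV.inter hW

lemma level_open (a : D.B) {Kp : Subgroup D.B} (hK : IsOpen (Kp : Set D.B)) (N : ℕ) :
    IsOpen (level a Kp N : Set D.B) := by
  induction N with
  | zero => exact hK
  | succ N ih => exact inf_open ih (conj_open hK)

lemma level_compact (a : D.B) {Kp : Subgroup D.B} (hK : IsCompact (Kp : Set D.B)) (N : ℕ) :
    IsCompact (level a Kp N : Set D.B) := by
  induction N with
  | zero => exact hK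
  | succ N ih => exact inf_compact ih (conj_compact hK)

lemma level_mem (a : D.B) (Kp : Subgroup D.B) {j N : ℕ} (hj : j ≤ N) :
    ∀ w ∈ level a Kp N, (a ^ j)⁻¹ * w * a ^ j ∈ Kp := by
  induction N with
  | zero =>
    intro w hw
    have : j = 0 := by omega
    subst this
    have hw' : w ∈ Kp := hw
    simpa using hw'
  | succ N ih =>
    intro w hw
    have hw' := Subgroup.mem_inf.mp hw
    by_cases h : j ≤ N
    · exact ih h w hw'.1
    · have : j = N + 1 := by omega
      subst this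
      exact mem_conj.mp hw'.2

lemma level_mem_inf (a : D.B) (Kp : Subgroup D.B) {j k N : ℕ} (hj : j ≤ k) (hk : k ≤ N) :
    ∀ w ∈ level a Kp N, (a ^ j)⁻¹ * w * a ^ j ∈ Kp ⊓ conj D (a ^ (k - j)) Kp := by
  intro w hw
  refine Subgroup.mem_inf.mpr ⟨level_mem a Kp (hj.trans hk) w hw, mem_conj.mpr ?_⟩
  have h := level_mem a Kp hk w hw
  have e : a ^ k = a ^ j * a ^ (k - j) := by rw [← pow_add, Nat.add_sub_cancel' hj]
  rw [e, mul_inv_rev] at h
  simpa [mul_assoc] using h

lemma isLevel_self {Kp : Subgroup D.B} (hK : IsOpen (Kp : Set D.B))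
    (hKc : IsCompact (Kp : Set D.B)) : IsLevel Kp Kp := ⟨hK, hKc, inf_le_left⟩

lemma isLevel_inf {Kp V : Subgroup D.B} (hK : IsLevel Kp Kp) (hV : IsLevel Kp V) (c : D.B) :
    IsLevel Kp (V ⊓ conj D c Kp) := by
  refine ⟨inf_open hV.isOpen (conj_open hK.isOpen), inf_compact hV.isCompact
    (conj_compact hK.isCompact), le_inf hV.central fun w hw => ?_⟩
  obtain ⟨h1, h2⟩ := Subgroup.mem_inf.mp hw
  rw [mem_conj]
  have h3 := Subgroup.mem_center_iff.mp h2 c⁻¹
  rw [h3, inv_mul_cancel_right]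
  exact h1

lemma level_isLevel (a : D.B) {Kp : Subgroup D.B} (hK : IsLevel Kp Kp) (N : ℕ) :
    IsLevel Kp (level a Kp N) := by
  induction N with
  | zero => exact hK
  | succ N ih => exact isLevel_inf hK ih _

end Pool.Agent.Q28.HP
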