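import Pool.Agent.Q28.HP.Dyn

/-!
# Toric packets of special points
-/

namespace Pool.Agent.Q28.HP

open Finset MeasureTheory Filter Topology

variable (D : Datum)

/-- A special point `[h, (b, v)]`, the torus `T` of `h` and its reciprocity map. The points
`[h, t (b, v)]`, `t ∈ T(𝔸_f)`, are the toric packet of the special point. -/
structure Toric where
  /-- the special point of `X`; it factors through the torus `T` over `ℚ` -/
  h : D.X
  /-- the group `T(𝔸_f)` -/
  T : Type
  [comm : CommGroup T]
  /-- the inclusion of `T(𝔸_f)` in `G(𝔸_f)`, away from `p` -/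
  tA : T →* D.A
  /-- the inclusion of `T(𝔸_f)` in `G(𝔸_f)`, at `p` -/
  tB : T →* D.B
  /-- the elements of `G(ℚ)` fixing `h` commute with the torus -/
  commutes : ∀ q : D.GQ, q • h = h → ∀ s, Commute (D.toA q) (tA s) ∧ Commute (D.toB q) (tB s)
  /-- the image of the reflex norm from the finite ideles of a field `E'` containing the reflex
  field of `(T, h)` -/
  I : Subgroup T
  /-- the reflex norm of an idele concentrated in a place over `p` -/
  s₀ : T
  s₀_mem : s₀ ∈ I
  tA_s₀ : tA s₀ = 1
  b : D.A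
  v : D.B

attribute [instance] Toric.comm

variable {D}

/-- The point `[h, t (b, v)]` of the toric packet, at the level `V`. -/
def Toric.pt (P : Toric D) (V : Subgroup D.B) (t : P.T) : Sh D V :=
  point D V P.h (P.tA t * P.b) (P.tB t * P.v)

/-- The toric packet. -/
def Toric.packet (P : Toric D) (V : Subgroup D.B) : Set (Sh D V) := Set.range (P.pt V)

/-- The element `a = v⁻¹ s₀ v` of `G(ℚ_p)`. -/
def Toric.a (P : Toric D) : D.B := P.v⁻¹ * P.tB P.s₀ * P.v

/-- **Known facts** on a sequence of toric packets, with the same element `a` of `G(ℚ_p)`. Here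
`Kp` is the level at `p` of the Shimura variety, `S(V)` a connected component of the Shimura variety
of level `K × V`, and `μ V` is the normalised invariant measure on `S(V)`.
* `dyn`: the element `a` preserves the components and the measures and is mixing.
* `same`: the element `a` is the same for all members of the sequence.
* `finite`: finiteness of the class numbers of tori.
* `equidistribution`: the whole toric packets are contained in `S(V)` and equidistributed. (For Hilbert
  modular varieties and quaternionic Shimura varieties: Zhang, Venkatesh, Michel and Venkatesh.) -/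
structure ToricFacts (Kp : Subgroup D.B) (μ : ∀ V : Subgroup D.B, Measure (Sh D V)) (a : D.B)
    (P : ℕ → Toric D) : Prop where
  dyn : Dyn Kp μ a
  same : ∀ n, (P n).a = a
  finite : ∀ n, ∀ V : Subgroup D.B, IsLevel Kp V → ((P n).packet V).Finite
  equidistribution : ∀ V : Subgroup D.B, IsLevel Kp V → ∀ F : Sh D V → ℝ, Continuous F →
    (∃ C : ℝ, ∀ z, |F z| ≤ C) →
    Tendsto (fun n => avg ((P n).packet V) F) atTop (𝓝 (∫ z, F z ∂μ V))

/-- **Known facts** on the Galois action on a toric packet: `Γ` is the group of the automorphisms of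
`ℂ` over the field of definition `E_S` of the component `S`; `Γ'` is the subgroup of a finite extension
`E'` of `E_S` containing the reflex field of the torus; `P 1` is the packet and `P σ` its conjugate
by `σ`.
* `reciprocity`: the reciprocity law: the `Γ'`-orbits are the orbits of the image of the reflex
  norm. -/
structure ToricGalois (Kp : Subgroup D.B) {Γ : Type} [Group Γ] [MulAction Γ (Sh D Kp)]
    (Γ' : Subgroup Γ) (P : Γ → Toric D) : Prop where
  conjugate : ∀ σ, (fun z => σ • z) '' (P 1).packet Kp = (P σ).packet Kp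
  reciprocity : ∀ σ t, orb Γ' ((P σ).pt Kp t) =
    Set.range fun s : (P σ).I => (P σ).pt Kp ((s : (P σ).T) * t)

lemma Toric.pt_isOrbitMap (P : Toric D) (V : Subgroup D.B) : IsOrbitMap (P.pt V) := by
  intro s t hst c
  unfold Toric.pt at hst ⊢
  rw [point_eq] at hst ⊢
  obtain ⟨q, k, hk, w, hw, h1, h2, h3⟩ := hst
  refine ⟨q, k, hk, w, hw, h1, ?_, ?_⟩
  · have h4 := (P.commutes q h1.symm c).1.eq
    rw [map_mul, map_mul, mul_assoc, h2]
    simp only [← mul_assoc]
    rw [h4]
  · have h4 := (P.commutes q h1.symm c).2.eq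
    rw [map_mul, map_mul, mul_assoc, h3]
    simp only [← mul_assoc]
    rw [h4]

lemma Toric.right_pt (P : Toric D) {V W : Subgroup D.B} (j : ℕ)
    (h : ∀ w ∈ V, (P.a ^ j)⁻¹ * w * P.a ^ j ∈ W) (t : P.T) :
    right D (P.a ^ j) h (P.pt V t) = P.pt W (t * P.s₀ ^ j) := by
  unfold Toric.pt
  rw [right_point]
  have h1 : P.v * P.a ^ j = P.tB P.s₀ ^ j * P.v := by
    have h2 : P.a ^ j = P.v⁻¹ * P.tB P.s₀ ^ j * P.v := by
      unfold Toric.a
      have := conj_pow (i := j) (a := P.v⁻¹) (b := P.tB P.s₀)
      simpa using this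
    rw [h2]
    group
  simp only [map_mul, map_pow, P.tA_s₀, one_pow, mul_one]
  rw [mul_assoc, h1, mul_assoc]

lemma erg_toric (P : Toric D) {Kp : Subgroup D.B} (f : Sh D Kp → ℝ) (N : ℕ) (t : P.T) :
    erg P.a f N (P.pt (level P.a Kp N) t) =
      (∑ j ∈ range (N + 1), f (P.pt Kp (t * P.s₀ ^ j))) / ((N + 1 : ℕ) : ℝ) := by
  unfold erg
  push_cast
  congr 1
  rw [← Finset.sum_attach (range (N + 1))]
  refine Finset.sum_congr rfl fun j _ => ?_
  rw [Toric.right_pt]

/-- the average over a packet of the squares of the deviations -/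
noncomputable def tvar (Kp : Subgroup D.B) (P : Toric D) (f : Sh D Kp → ℝ) (c : ℝ) : ℝ :=
  avg (P.packet Kp) fun z => (avg {w | ∃ t, z = P.pt Kp t ∧
    w ∈ Set.range fun s : P.I => P.pt Kp ((s : P.T) * t)} f - c) ^ 2

lemma toric_set (P : Toric D) (V : Subgroup D.B) (t : P.T) :
    {w | ∃ t', P.pt V t = P.pt V t' ∧ w ∈ Set.range fun s : P.I => P.pt V ((s : P.T) * t')} =
      Set.range fun s : P.I => P.pt V ((s : P.T) * t) := by
  ext w
  constructor
  · rintro ⟨t', h1, s, rfl⟩
    refine ⟨s, ?_⟩
    exact P.pt_isOrbitMap V _ _ h1 s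
  · rintro ⟨s, rfl⟩
    exact ⟨t, rfl, s, rfl⟩

lemma avg_nonneg {α : Type*} (S : Set α) (f : α → ℝ) (h : ∀ a, 0 ≤ f a) : 0 ≤ avg S f := by
  unfold avg
  exact div_nonneg (finsum_nonneg fun a => finsum_nonneg fun _ => h a) (by positivity)

lemma tvar_le {Kp : Subgroup D.B} (hK : IsLevel Kp Kp) (P : Toric D)
    (hfin : ∀ V : Subgroup D.B, IsLevel Kp V → (P.packet V).Finite) (f : Sh D Kp → ℝ) (c : ℝ)
    (N : ℕ) :
    tvar Kp P f c ≤ avg (P.packet (level P.a Kp N)) fun z => (erg P.a f N z - c) ^ 2 := by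
  classical
  set V := level P.a Kp N with hV
  have hVl := level_isLevel P.a hK N
  have hz := P.pt_isOrbitMap V
  have hy := P.pt_isOrbitMap Kp
  have hzf : (Set.range (P.pt V)).Finite := hfin V hVl
  have hyf : (Set.range (P.pt Kp)).Finite := hfin Kp hK
  have hyz : ∀ t, P.pt Kp t = right D (P.a ^ 0) (level_mem P.a Kp (Nat.zero_le N)) (P.pt V t) := by
    intro t
    rw [Toric.right_pt]
    simp
  let R : Subgroup P.T := fixer (P.pt V) hz
  have hRfin : R.FiniteIndex := fixer_finite hz hzf
  have : Finite (P.T ⧸ R) := Subgroup.finite_quotient_of_finiteIndex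
  have : Fintype (P.T ⧸ R) := Fintype.ofFinite _
  have hRy : R ≤ fixer (P.pt Kp) hy := by
    intro r hr
    have h1 : P.pt V r = P.pt V 1 := hr
    rw [mem_fixer, hyz, hyz, h1]
  -- the subgroup of the reciprocity map
  let RI : Subgroup P.I := R.subgroupOf P.I
  have hRIfin : RI.FiniteIndex := inferInstance
  have : Finite (P.I ⧸ RI) := Subgroup.finite_quotient_of_finiteIndex
  have : Fintype (P.I ⧸ RI) := Fintype.ofFinite _
  let s₀ : P.I := ⟨P.s₀, P.s₀_mem⟩
  have key : ∀ t, (avg (Set.range fun s : P.I => P.pt Kp ((s : P.T) * t)) f - c) ^ 2 ≤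
      mean RI fun s => (erg P.a f N (P.pt V ((s : P.T) * t)) - c) ^ 2 := by
    intro t
    have hy' : IsOrbitMap fun s : P.I => P.pt Kp ((s : P.T) * t) := by
      intro s s' h r
      have := hy _ _ h r
      simpa [mul_assoc] using this
    have hyf' : (Set.range fun s : P.I => P.pt Kp ((s : P.T) * t)).Finite :=
      hyf.subset (by rintro _ ⟨s, rfl⟩; exact ⟨_, rfl⟩)
    have hRy' : RI ≤ fixer _ hy' := by
      intro r hr
      have h1 : (r : P.T) ∈ fixer (P.pt Kp) hy := hRy (Subgroup.mem_subgroupOf.mp hr)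
      rw [mem_fixer]
      change P.pt Kp ((r : P.T) * t) = P.pt Kp (((1 : P.I) : P.T) * t)
      rw [fixer_inv hy h1 t]
      simp
    refine sq_avg_le RI hy' hyf' hRy' s₀ (N + 1) (Nat.succ_pos N) f (erg P.a f N)
      (z := fun s : P.I => P.pt V ((s : P.T) * t)) (fun s => ?_) c
    rw [erg_toric]
    congr 1
    refine Finset.sum_congr rfl fun j _ => ?_
    congr 2
    simp only [s₀, Subgroup.coe_mul, Subgroup.coe_pow]
    exact mul_right_comm _ _ _
  unfold tvar
  have e1 : avg (P.packet Kp) (fun z => (avg {w | ∃ t, z = P.pt Kp t ∧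
      w ∈ Set.range fun s : P.I => P.pt Kp ((s : P.T) * t)} f - c) ^ 2) =
      mean R fun t => (avg (Set.range fun s : P.I => P.pt Kp ((s : P.T) * t)) f - c) ^ 2 := by
    unfold Toric.packet
    rw [avg_range R hy hyf hRy]
    congr 1
    funext t
    rw [toric_set]
  have e2 : avg (P.packet V) (fun z => (erg P.a f N z - c) ^ 2) =
      mean R fun t => (erg P.a f N (P.pt V t) - c) ^ 2 := by
    unfold Toric.packet
    rw [avg_range R hz hzf le_rfl]
  rw [e1, e2]
  -- exchange the means
  have e3 : mean R (fun t => mean RI fun s => (erg P.a f N (P.pt V ((s : P.T) * t)) - c) ^ 2) =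
      mean R fun t => (erg P.a f N (P.pt V t) - c) ^ 2 := by
    have h1 : mean R (fun t => mean RI fun s =>
        (erg P.a f N (P.pt V ((s : P.T) * t)) - c) ^ 2) =
        mean RI fun s => mean R fun t => (erg P.a f N (P.pt V ((s : P.T) * t)) - c) ^ 2 := by
      unfold mean
      simp_rw [← Finset.sum_div]
      rw [Finset.sum_comm, div_right_comm]
    have h2 : ∀ s : P.I, mean R (fun t => (erg P.a f N (P.pt V ((s : P.T) * t)) - c) ^ 2) =
        mean R fun t => (erg P.a f N (P.pt V t) - c) ^ 2 := by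
      intro s
      have h3 := mean_shift R (φ := fun t => (erg P.a f N (P.pt V t) - c) ^ 2)
        (fun r hr t => by rw [fixer_inv hz hr t]) (s : P.T)
      rw [← h3]
      congr 1
      funext t
      rw [mul_comm]
    rw [h1]
    simp_rw [h2]
    unfold mean
    have h0 : (Fintype.card (P.I ⧸ RI) : ℝ) ≠ 0 := by exact_mod_cast Fintype.card_ne_zero
    rw [Finset.sum_const, Finset.card_univ, nsmul_eq_mul, mul_div_cancel_left₀ _ h0]
  rw [← e3]
  unfold mean
  exact div_le_div_of_nonneg_right (Finset.sum_le_sum fun t _ => key _) (by positivity)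

/-- **the variance theorem** for toric packets -/
theorem toric_variance {Kp : Subgroup D.B} {μ : ∀ V : Subgroup D.B, Measure (Sh D V)} {a : D.B}
    {P : ℕ → Toric D} (hF : ToricFacts Kp μ a P) (hK : IsLevel Kp Kp) (f : Sh D Kp → ℝ)
    (hf : Continuous f) (hc : HasCompactSupport f) :
    Tendsto (fun n => tvar Kp (P n) f (∫ w, f w ∂μ Kp)) atTop (𝓝 0) := by
  set c := ∫ w, f w ∂μ Kp with hcdef
  obtain ⟨C, hC⟩ := hc.exists_bound_of_continuous hf
  simp only [Real.norm_eq_abs] at hC
  have h0 : ∀ n, 0 ≤ tvar Kp (P n) f c := fun n => avg_nonneg _ _ fun z => sq_nonneg _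
  rw [Metric.tendsto_atTop']
  intro ε hε
  obtain ⟨N, hN⟩ := ((ergodic' hF.dyn hK f hf hc).eventually_lt_const hε).exists
  have h1 := hF.equidistribution (level a Kp N) (level_isLevel a hK N)
    (fun z => (erg a f N z - c) ^ 2) (((continuous_erg a hf N).sub continuous_const).pow 2)
    ⟨(C + |c|) ^ 2, fun z => by
      rw [abs_pow]
      have h2 : |erg a f N z - c| ≤ C + |c| :=
        (abs_sub _ _).trans (by linarith [abs_erg_le a hC N z])
      exact pow_le_pow_left₀ (abs_nonneg _) h2 2⟩
  obtain ⟨n₀, hn₀⟩ := eventually_atTop.mp (h1.eventually_lt_const hN)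
  refine ⟨n₀, fun n hn => ?_⟩
  rw [Real.dist_eq, sub_zero, abs_of_nonneg (h0 n)]
  have h2 := tvar_le hK (P n) (hF.finite n) f c N
  have h3 := hF.same n
  refine lt_of_le_of_lt h2 ?_
  have h4 := hn₀ n hn.le
  subst h3
  exact h4

end Pool.Agent.Q28.HP
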