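import Pool.Agent.Q28.HP.Toric

/-!
# Galois orbits of almost all points of toric packets
-/

namespace Pool.Agent.Q28.HP

open Finset MeasureTheory Filter Topology

lemma exists_reps_card {Γ : Type} [Group Γ] (Γ' : Subgroup Γ) (h : Γ'.FiniteIndex) :
    ∃ T : Finset Γ, T.card ≤ Γ'.index ∧ ∀ σ : Γ, ∃ t ∈ T, σ * t⁻¹ ∈ Γ' := by
  classical
  have : Finite (Γ ⧸ Γ') := Subgroup.finite_quotient_of_finiteIndex
  have : Fintype (Γ ⧸ Γ') := Fintype.ofFinite _
  refine ⟨Finset.univ.image fun q : Γ ⧸ Γ' => q.out⁻¹, ?_, fun σ => ?_⟩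
  · refine Finset.card_image_le.trans (le_of_eq ?_)
    rw [Finset.card_univ, Subgroup.index, Nat.card_eq_fintype_card]
  · refine ⟨(QuotientGroup.mk σ⁻¹ : Γ ⧸ Γ').out⁻¹,
      Finset.mem_image.mpr ⟨_, Finset.mem_univ _, rfl⟩, ?_⟩
    have h1 : (QuotientGroup.mk (QuotientGroup.mk σ⁻¹ : Γ ⧸ Γ').out : Γ ⧸ Γ') =
        QuotientGroup.mk σ⁻¹ := by simp
    rw [QuotientGroup.eq] at h1
    have h2 := Γ'.inv_mem h1
    simpa using h2

lemma avg_mono {α : Type*} {S : Set α} (hS : S.Finite) {f g : α → ℝ} (h : ∀ a ∈ S, f a ≤ g a) :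
    avg S f ≤ avg S g := by
  rw [avg_eq hS, avg_eq hS]
  exact div_le_div_of_nonneg_right (Finset.sum_le_sum fun a ha =>
    h a ((Set.Finite.mem_toFinset hS).mp ha)) (by positivity)

lemma avg_sum {α ι : Type*} {S : Set α} (hS : S.Finite) (T : Finset ι) (f : ι → α → ℝ) :
    avg S (fun a => ∑ i ∈ T, f i a) = ∑ i ∈ T, avg S (f i) := by
  simp_rw [avg_eq hS]
  rw [Finset.sum_comm, Finset.sum_div]

/-- averages and injective maps -/
lemma avg_image {α β : Type*} {S : Set α} (e : α → β) (he : Function.Injective e)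
    (f : β → ℝ) : avg (e '' S) f = avg S fun a => f (e a) := by
  classical
  unfold avg
  rw [Set.ncard_image_of_injective S he, finsum_mem_image he.injOn]

variable {D : Datum} {Kp : Subgroup D.B} {Γ : Type} [Group Γ] [MulAction Γ (Sh D Kp)]

lemma tvar_eq {Γ' : Subgroup Γ} {P : Γ → Toric D} (hG : ToricGalois Kp Γ' P) (σ : Γ)
    (hfin : ((P σ).packet Kp).Finite)
    (f : Sh D Kp → ℝ) (c : ℝ) :
    tvar Kp (P σ) f c = avg ((P σ).packet Kp) fun z => (avg (orb Γ' z) f - c) ^ 2 := by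
  unfold tvar
  rw [avg_eq hfin, avg_eq hfin]
  congr 1
  refine Finset.sum_congr rfl fun z hz => ?_
  rw [Set.Finite.mem_toFinset] at hz
  obtain ⟨t, rfl⟩ := hz
  rw [toric_set, hG.reciprocity σ t]

/-- the variance for the Galois orbits in terms of the variances for the packets -/
lemma toric_galois_le {Γ' : Subgroup Γ} {P : Γ → Toric D} (hG : ToricGalois Kp Γ' P)
    (hfin : ∀ σ, ((P σ).packet Kp).Finite) (T : Finset Γ)
    (hT : ∀ σ : Γ, ∃ t ∈ T, σ * t⁻¹ ∈ Γ') (hΓ' : Γ'.FiniteIndex) (f : Sh D Kp → ℝ) (c : ℝ) :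
    avg ((P 1).packet Kp) (fun z => (avg (MulAction.orbit Γ z) f - c) ^ 2) ≤
      ∑ t ∈ T, tvar Kp (P t) f c := by
  have horb : ∀ σ, ∀ z ∈ (P σ).packet Kp, (orb Γ' z).Finite := by
    rintro σ z ⟨t, rfl⟩
    rw [hG.reciprocity σ t]
    refine (hfin σ).subset ?_
    rintro _ ⟨s, rfl⟩
    exact ⟨_, rfl⟩
  have hmem : ∀ z ∈ (P 1).packet Kp, ∀ σ : Γ, σ • z ∈ (P σ).packet Kp := by
    intro z hz σ
    rw [← hG.conjugate σ]
    exact ⟨z, hz, rfl⟩
  calc avg ((P 1).packet Kp) (fun z => (avg (MulAction.orbit Γ z) f - c) ^ 2)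
      ≤ avg ((P 1).packet Kp) (fun z => ∑ t ∈ T, (avg (orb Γ' (t • z)) f - c) ^ 2) :=
        avg_mono (hfin 1) fun z hz => sq_orbit_le Γ' T hT z
          (orbit_finite Γ' hΓ' z fun σ => horb σ _ (hmem z hz σ)) f c
    _ = ∑ t ∈ T, avg ((P 1).packet Kp) (fun z => (avg (orb Γ' (t • z)) f - c) ^ 2) :=
        avg_sum (hfin 1) T _
    _ = ∑ t ∈ T, tvar Kp (P t) f c := by
        refine Finset.sum_congr rfl fun t _ => ?_
        rw [tvar_eq hG t (hfin t), ← hG.conjugate t]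
        exact (avg_image (fun z => t • z) (MulAction.injective t)
          (fun z => (avg (orb Γ' z) f - c) ^ 2)).symm

/-- **the variance theorem** for the Galois orbits of the points of toric packets -/
theorem toric_galois (hK : IsLevel Kp Kp) {Γ' : ℕ → Subgroup Γ} {B : ℕ}
    (hB : ∀ n, (Γ' n).index ≠ 0 ∧ (Γ' n).index ≤ B) {P : ℕ → Γ → Toric D}
    (hfin : ∀ n σ, ((P n σ).packet Kp).Finite)
    (hG : ∀ n, ToricGalois Kp (Γ' n) (P n)) {m : Measure (Sh D Kp)}
    (hF : ∀ (τ : ℕ → Γ) (ns : ℕ → ℕ), Tendsto ns atTop atTop → ∃ (ms : ℕ → ℕ) (a : D.B)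
      (μ : ∀ V : Subgroup D.B, Measure (Sh D V)), μ Kp = m ∧
      ToricFacts Kp μ a fun n => P (ns (ms n)) (τ (ns (ms n))))
    (f : Sh D Kp → ℝ) (hf : Continuous f) (hc : HasCompactSupport f) :
    Tendsto (fun n => avg ((P n 1).packet Kp) fun z =>
      (avg (MulAction.orbit Γ z) f - ∫ w, f w ∂m) ^ 2) atTop (𝓝 0) := by
  classical
  have hfi : ∀ n, (Γ' n).FiniteIndex := fun n => ⟨(hB n).1⟩
  choose T hTc hT using fun n => exists_reps_card (Γ' n) (hfi n)
  set c := ∫ w, f w ∂m with hcdef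
  -- the worst conjugate
  have hTne : ∀ n, (T n).Nonempty := fun n => by
    obtain ⟨t, ht, -⟩ := hT n 1
    exact ⟨t, ht⟩
  choose τ hτ1 hτ2 using fun n => (T n).exists_max_image (fun t => tvar Kp (P n t) f c) (hTne n)
  have h1 : Tendsto (fun n => tvar Kp (P n (τ n)) f c) atTop (𝓝 0) := by
    refine tendsto_of_subseq_tendsto fun ns hns => ?_
    obtain ⟨ms, a, μ, hμ, hFn⟩ := hF τ ns hns
    refine ⟨ms, ?_⟩
    have h2 := toric_variance hFn hK f hf hc
    rw [hμ] at h2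
    exact h2
  have h2 : Tendsto (fun n => (B : ℝ) * tvar Kp (P n (τ n)) f c) atTop (𝓝 0) := by
    simpa using h1.const_mul (B : ℝ)
  refine squeeze_zero (fun n => avg_nonneg _ _ fun z => sq_nonneg _) (fun n => ?_) h2
  refine (toric_galois_le (hG n) (hfin n) (T n) (hT n) (hfi n) f c).trans ?_
  have h3 : 0 ≤ tvar Kp (P n (τ n)) f c := avg_nonneg _ _ fun z => sq_nonneg _
  calc ∑ t ∈ T n, tvar Kp (P n t) f c ≤ ∑ _t ∈ T n, tvar Kp (P n (τ n)) f c :=
        Finset.sum_le_sum fun t ht => hτ2 n t ht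
    _ = (T n).card * tvar Kp (P n (τ n)) f c := by rw [Finset.sum_const, nsmul_eq_mul]
    _ ≤ (B : ℝ) * tvar Kp (P n (τ n)) f c := by
        refine mul_le_mul_of_nonneg_right ?_ h3
        exact_mod_cast (hTc n).trans (hB n).2

variable [T2Space (Sh D Kp)] [LocallyCompactSpace (Sh D Kp)] [SecondCountableTopology (Sh D Kp)]

/-- **almost all points of toric packets** -/
theorem toric_almost_all (hK : IsLevel Kp Kp) {Γ' : ℕ → Subgroup Γ} {B : ℕ}
    (hB : ∀ n, (Γ' n).index ≠ 0 ∧ (Γ' n).index ≤ B) {P : ℕ → Γ → Toric D}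
    (hfin : ∀ n σ, ((P n σ).packet Kp).Finite)
    (hG : ∀ n, ToricGalois Kp (Γ' n) (P n)) {m : Measure (Sh D Kp)} [IsProbabilityMeasure m]
    (hF : ∀ (τ : ℕ → Γ) (ns : ℕ → ℕ), Tendsto ns atTop atTop → ∃ (ms : ℕ → ℕ) (a : D.B)
      (μ : ∀ V : Subgroup D.B, Measure (Sh D V)), μ Kp = m ∧
      ToricFacts Kp μ a fun n => P (ns (ms n)) (τ (ns (ms n)))) :
    ∃ bad : ∀ n, Set (Sh D Kp), (∀ n, bad n ⊆ (P n 1).packet Kp) ∧
      Tendsto (fun n => ((bad n).ncard : ℝ) / ((P n 1).packet Kp).ncard) atTop (𝓝 0) ∧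
      ∀ z : ℕ → Sh D Kp, (∀ᶠ n in atTop, z n ∈ (P n 1).packet Kp \ bad n) →
        ∀ f : Sh D Kp → ℝ, Continuous f → HasCompactSupport f →
        Tendsto (fun n => avg (MulAction.orbit Γ (z n)) f) atTop (𝓝 (∫ w, f w ∂m)) := by
  classical
  obtain ⟨φ, hφ, hd⟩ := exists_dense_family (S := Sh D Kp)
  have hfinJ : ∀ n, Finite ((P n 1).packet Kp) := fun n => (hfin n 1).to_subtype
  obtain ⟨bad, hb1, hb2⟩ := exists_bad (J := fun n => (P n 1).packet Kp) hfinJ (fun n z i =>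
    avg (MulAction.orbit Γ (z : Sh D Kp)) (φ i) - ∫ w, φ i w ∂m) fun i => by
      have h1 := toric_galois hK hB hfin hG hF (φ i) (hφ i).1 (hφ i).2
      refine h1.congr fun n => ?_
      unfold avg
      rw [← finsum_set_coe_eq_finsum_mem, Nat.card_coe_set_eq]
  refine ⟨fun n => Subtype.val '' (bad n), ?_, ?_, ?_⟩
  · rintro n _ ⟨z, -, rfl⟩
    exact z.2
  · refine hb1.congr fun n => ?_
    rw [Set.ncard_image_of_injective _ Subtype.val_injective, Nat.card_coe_set_eq]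
  · intro z hz f hf hc
    -- replace the sequence by a sequence of elements of the packets
    let z' : ∀ n, (P n 1).packet Kp := fun n =>
      if h : z n ∈ (P n 1).packet Kp then ⟨z n, h⟩ else ⟨(P n 1).pt Kp 1, ⟨1, rfl⟩⟩
    have hz' : ∀ᶠ n in atTop, ((z' n : (P n 1).packet Kp) : Sh D Kp) = z n := by
      filter_upwards [hz] with n hn
      simp only [z', dif_pos hn.1]
    have hgood : ∀ᶠ n in atTop, z' n ∉ bad n := by
      filter_upwards [hz, hz'] with n hn hn' hbad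
      exact hn.2 ⟨z' n, hbad, hn'⟩
    have hlim := hb2 z' hgood
    have horb : ∀ n, (MulAction.orbit Γ ((z' n : (P n 1).packet Kp) : Sh D Kp)).Finite := by
      intro n
      have hmem : ∀ σ : Γ, σ • ((z' n : (P n 1).packet Kp) : Sh D Kp) ∈ (P n σ).packet Kp := by
        intro σ
        rw [← (hG n).conjugate σ]
        exact ⟨_, (z' n).2, rfl⟩
      refine orbit_finite (Γ' n) ⟨(hB n).1⟩ _ fun σ => ?_
      obtain ⟨t, ht⟩ := hmem σ
      rw [← ht, (hG n).reciprocity σ t]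
      refine (hfin n σ).subset ?_
      rintro _ ⟨s, rfl⟩
      exact ⟨_, rfl⟩
    have key : Tendsto (fun n => avg (MulAction.orbit Γ ((z' n : (P n 1).packet Kp) : Sh D Kp)) f)
        atTop (𝓝 (∫ w, f w ∂m)) := by
      rw [Metric.tendsto_atTop']
      intro ε hε
      obtain ⟨i, hi⟩ := hd f hf hc (ε / 4) (by positivity)
      obtain ⟨N, hN⟩ := Metric.tendsto_atTop'.mp (hlim i) (ε / 4) (by positivity)
      refine ⟨N, fun n hn => ?_⟩
      have h2 := hN n hn
      rw [Real.dist_eq, sub_zero] at h2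
      have h3 := avg_sub_le (horb n) ⟨_, MulAction.mem_orbit_self _⟩ f (φ i) (ε / 4) hi
      have h4 : |∫ w, f w ∂m - ∫ w, φ i w ∂m| ≤ ε / 4 := by
        rw [← integral_sub (hf.integrable_of_hasCompactSupport hc)
          ((hφ i).1.integrable_of_hasCompactSupport (hφ i).2), ← Real.norm_eq_abs]
        refine (norm_integral_le_of_norm_le_const (C := ε / 4)
          (Filter.Eventually.of_forall fun y => ?_)).trans ?_
        · rw [Real.norm_eq_abs]; exact hi y
        · simp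
      rw [Real.dist_eq]
      rw [abs_le] at h3 h4
      rw [abs_lt] at h2 ⊢
      constructor <;> linarith [h2.1, h2.2, h3.1, h3.2, h4.1, h4.2]
    refine key.congr' ?_
    filter_upwards [hz'] with n hn
    rw [hn]

end Pool.Agent.Q28.HP
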