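import Pool.Agent.Q28.HP.Ergodic

/-!
# The variance over Hecke orbits
-/

namespace Pool.Agent.Q28.HP

open Finset MeasureTheory Filter Topology

variable {D : Datum} {Kp : Subgroup D.B} {μ : ∀ V : Subgroup D.B, Measure (Sh D V)} {g : ℕ → D.A}
  {P : CM D}

/-- the Hecke averages of `G` are small for all conjugates of the base point -/
lemma hecke_small (hF : Facts Kp μ g P) {V : Subgroup D.B} (hV : IsLevel Kp V)
    (G : Sh D V → ℝ) (hG : Continuous G)
    (hb : ∃ C : ℝ, ∀ z, |G z| ≤ C) (ε : ℝ) (h : ∫ z, G z ∂μ V < ε) :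
    ∀ᶠ n in atTop, ∀ s : P.I, hecke D (g n) G P.h (P.rA s * P.b) (P.rB s * P.v) ≤ ε := by
  have h1 : ∀ᶠ n in atTop, ∀ z ∈ Set.range (fun s => P.pt V s P.b), ∀ s, P.pt V s P.b = z →
      hecke D (g n) G P.h (P.rA s * P.b) (P.rB s * P.v) ≤ ε := by
    rw [Filter.eventually_all_finite (hF.finite V hV P.b)]
    rintro _ ⟨s₁, rfl⟩
    have h2 := hF.equidistribution V hV G hG hb s₁
    filter_upwards [h2.eventually_lt_const h] with n hn s hs
    rw [hecke_congr (g n) G hs]
    exact hn.le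
  filter_upwards [h1] with n hn s
  exact hn _ ⟨s, rfl⟩ s rfl

/-- the average over `k ∈ K / (K ∩ g K g⁻¹)` of the squares of the deviations -/
noncomputable def var (Kp : Subgroup D.B) (P : CM D) (g : D.A) (f : Sh D Kp → ℝ) (c : ℝ) : ℝ :=
  (∑ᶠ k : HeckeIndex D g,
    (avg (Set.range fun s => P.pt Kp s (P.b * (k.out : D.A) * g)) f - c) ^ 2) /
      Nat.card (HeckeIndex D g)

lemma var_le (hF : Facts Kp μ g P) (hK : IsLevel Kp Kp)
    (f : Sh D Kp → ℝ) (c : ℝ) (N : ℕ) (g₁ : D.A) (hfin : Finite (HeckeIndex D g₁)) (ε : ℝ)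
    (h : ∀ s : P.I, hecke D g₁ (fun z => (erg P.a f N z - c) ^ 2) P.h (P.rA s * P.b)
      (P.rB s * P.v) ≤ ε) :
    var Kp P g₁ f c ≤ ε := by
  classical
  have : Fintype (HeckeIndex D g₁) := Fintype.ofFinite _
  have hcard : (0 : ℝ) < Nat.card (HeckeIndex D g₁) := by
    have : 0 < Nat.card (HeckeIndex D g₁) := Nat.card_pos
    exact_mod_cast this
  set V := level P.a Kp N with hV
  have hVo := level_isLevel P.a hK N
  let u : HeckeIndex D g₁ → D.A := fun k => P.b * (k.out : D.A) * g₁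
  let z : HeckeIndex D g₁ → P.I → Sh D V := fun k s => P.pt V s (u k)
  let y : HeckeIndex D g₁ → P.I → Sh D Kp := fun k s => P.pt Kp s (u k)
  have hz : ∀ k, IsOrbitMap (z k) := fun k => pt_isOrbitMap P V (u k)
  have hy : ∀ k, IsOrbitMap (y k) := fun k => pt_isOrbitMap P Kp (u k)
  have hzf : ∀ k, (Set.range (z k)).Finite := fun k => hF.finite V hVo (u k)
  have hyf : ∀ k, (Set.range (y k)).Finite := fun k => hF.finite Kp hK (u k)
  have hyz : ∀ k s, y k s = right D (P.a ^ 0) (level_mem P.a Kp (Nat.zero_le N)) (z k s) := by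
    intro k s
    rw [right_pt]
    simp [y]
  let R : Subgroup P.I := ⨅ k, fixer (z k) (hz k)
  have hRfin : R.FiniteIndex :=
    Subgroup.finiteIndex_iInf fun k => fixer_finite (hz k) (hzf k)
  have : Finite (P.I ⧸ R) := Subgroup.finite_quotient_of_finiteIndex
  have : Fintype (P.I ⧸ R) := Fintype.ofFinite _
  have hRz : ∀ k, R ≤ fixer (z k) (hz k) := fun k => iInf_le _ k
  have hRy : ∀ k, R ≤ fixer (y k) (hy k) := by
    intro k c hc
    have h1 : z k c = z k 1 := hRz k hc
    rw [mem_fixer, hyz, hyz, h1]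
  have key : ∀ k, (avg (Set.range (y k)) f - c) ^ 2 ≤
      mean R fun s => (erg P.a f N (z k s) - c) ^ 2 := fun k =>
    sq_avg_le R (hy k) (hyf k) (hRy k) P.s₀ (N + 1) (Nat.succ_pos N) f (erg P.a f N)
      (fun s => erg_pt P f N s (u k)) c
  unfold var
  rw [finsum_eq_sum_of_fintype, div_le_iff₀ hcard]
  calc ∑ k : HeckeIndex D g₁, (avg (Set.range fun s => P.pt Kp s (P.b * (k.out : D.A) * g₁)) f - c) ^ 2
      ≤ ∑ k : HeckeIndex D g₁, mean R fun s => (erg P.a f N (z k s) - c) ^ 2 :=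
        Finset.sum_le_sum fun k _ => key k
    _ = mean R fun s => ∑ k : HeckeIndex D g₁, (erg P.a f N (z k s) - c) ^ 2 :=
        (mean_sum R Finset.univ fun k s => (erg P.a f N (z k s) - c) ^ 2).symm
    _ ≤ ε * Nat.card (HeckeIndex D g₁) := by
        refine mean_le R fun s => ?_
        have h1 := h s
        unfold hecke at h1
        rw [finsum_eq_sum_of_fintype, div_le_iff₀ hcard] at h1
        refine le_trans (le_of_eq ?_) h1
        refine Finset.sum_congr rfl fun k _ => ?_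
        have h2 : z k s = heckePoint D V g₁ P.h (P.rA s * P.b) (P.rB s * P.v) k := by
          simp only [z, u, CM.pt, heckePoint, mul_assoc]
        rw [h2]

/-- **the variance theorem** for the orbits of the reciprocity map -/
theorem variance (hF : Facts Kp μ g P) (hK : IsLevel Kp Kp) (hfin : ∀ n, Finite (HeckeIndex D (g n)))
    (f : Sh D Kp → ℝ) (hf : Continuous f) (hc : HasCompactSupport f) :
    Tendsto (fun n => var Kp P (g n) f (∫ w, f w ∂μ Kp)) atTop (𝓝 0) := by
  set c := ∫ w, f w ∂μ Kp with hcdef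
  obtain ⟨C, hC⟩ := hc.exists_bound_of_continuous hf
  simp only [Real.norm_eq_abs] at hC
  have h0 : ∀ n, 0 ≤ var Kp P (g n) f c := fun n => by
    unfold var
    exact div_nonneg (finsum_nonneg fun k => sq_nonneg _) (by positivity)
  rw [Metric.tendsto_atTop']
  intro ε hε
  obtain ⟨N, hN⟩ := ((ergodic hF hK f hf hc).eventually_lt_const (half_pos hε)).exists
  have h1 := hecke_small hF (level_isLevel P.a hK N)
    (fun z => (erg P.a f N z - c) ^ 2) (((continuous_erg P.a hf N).sub continuous_const).pow 2)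
    ⟨(C + |c|) ^ 2, fun z => by
      rw [abs_pow]
      have h2 : |erg P.a f N z - c| ≤ C + |c| :=
        (abs_sub _ _).trans (by linarith [abs_erg_le P.a hC N z])
      exact pow_le_pow_left₀ (abs_nonneg _) h2 2⟩ (ε / 2) hN
  obtain ⟨n₀, hn₀⟩ := eventually_atTop.mp h1
  refine ⟨n₀, fun n hn => ?_⟩
  rw [Real.dist_eq, sub_zero, abs_of_nonneg (h0 n)]
  exact lt_of_le_of_lt (var_le hF hK f c N (g n) (hfin n) (ε / 2) (hn₀ n hn.le))
    (half_lt_self hε)

end Pool.Agent.Q28.HP
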